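import Pool.Agent.SawTree.Trans

open scoped ENNReal
open Filter Topology

namespace Pool.Agent.SawTree

/-- the list of sites (endpoint first) of the walk with reversed step word `r` -/
def pr (r : Wd) : List (ℤ × ℤ) := r.tails.map (fun s => (X s, Y s))

@[simp] lemma pr_nil : pr [] = [(0, 0)] := rfl

@[simp] lemma pr_cons (i : Fin 4) (r : Wd) :
    pr (i :: r) = (X (i :: r), Y (i :: r)) :: pr r := rfl

lemma pr_head (r : Wd) : (pr r).headD (0, 0) = (X r, Y r) := by
  cases r with
  | nil => rfl
  | cons i r => rfl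

lemma pr_ne_nil (r : Wd) : pr r ≠ [] := by
  cases r with
  | nil => simp
  | cons i r => simp

lemma pr_length (r : Wd) : (pr r).length = r.length + 1 := by
  simp [pr]

lemma v_inj : ∀ i j : Fin 4, vx i = vx j → vy i = vy j → i = j := by decide

lemma pr_injective : Function.Injective pr := by
  intro r
  induction r with
  | nil =>
    intro s h
    have := congrArg List.length h
    rw [pr_length, pr_length] at this
    simp at this
    exact this.symm
  | cons i r ih =>
    intro s h
    cases s with
    | nil =>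
      have := congrArg List.length h
      rw [pr_length, pr_length] at this
      simp at this
    | cons j s =>
      rw [pr_cons, pr_cons] at h
      have h1 := List.cons.inj h
      have h2 := ih h1.2
      subst h2
      have h3 := Prod.ext_iff.mp h1.1
      simp only [X_cons, Y_cons, add_left_inj] at h3
      rw [v_inj i j h3.1 h3.2]

lemma mem_pr {r : Wd} {p : ℤ × ℤ} : p ∈ pr r ↔ ∃ s t, r = t ++ s ∧ p = (X s, Y s) := by
  unfold pr
  rw [List.mem_map]
  constructor
  · rintro ⟨s, hs, rfl⟩
    rw [List.mem_tails] at hs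
    obtain ⟨t, ht⟩ := hs
    exact ⟨s, t, ht.symm, rfl⟩
  · rintro ⟨s, t, rfl, rfl⟩
    exact ⟨s, by rw [List.mem_tails]; exact ⟨t, rfl⟩, rfl⟩

lemma nodup_pr (r : Wd) : (pr r).Nodup ↔ Saw r := by
  induction r with
  | nil => simp [saw_nil]
  | cons i r ih =>
    rw [pr_cons, List.nodup_cons, ih]
    constructor
    · rintro ⟨h1, h2⟩ a b c e hb hxy
      cases a with
      | nil =>
        rw [List.nil_append] at e
        apply h1
        rw [mem_pr]
        cases b with
        | nil => exact absurd rfl hb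
        | cons j b =>
          simp only [List.cons_append, List.cons.injEq] at e
          refine ⟨c, b, e.2, ?_⟩
          rw [e.1, e.2]
          have h3 : X (j :: (b ++ c)) = X (j :: b) + X c := by simp [add_assoc]
          have h4 : Y (j :: (b ++ c)) = Y (j :: b) + Y c := by simp [add_assoc]
          rw [h3, h4, hxy.1, hxy.2, zero_add, zero_add]
      | cons j a =>
        simp only [List.cons_append, List.cons.injEq] at e
        exact h2 a b c e.2 hb hxy
    · intro h
      refine ⟨?_, h.right (a := [i]) (by simp)⟩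
      intro hm
      rw [mem_pr] at hm
      obtain ⟨s, t, rfl, hp⟩ := hm
      apply h [] (i :: t) s (by simp) (by simp)
      have h3 := Prod.ext_iff.mp hp
      simp only [X_cons, Y_cons, X_append, Y_append] at h3 ⊢
      constructor
      · linarith [h3.1]
      · linarith [h3.2]

lemma getLast_pr (r : Wd) : (pr r).getLast? = some (0, 0) := by
  induction r with
  | nil => simp
  | cons i r ih =>
    rw [pr_cons, List.getLast?_cons, ih]
    simp

/-- being a vertex of the tree of self-avoiding walks in the upper half-plane -/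
def Tr (w : List (ℤ × ℤ)) : Prop :=
  w.Nodup ∧ w.getLast? = some ((0 : ℤ), (0 : ℤ)) ∧
    (∀ i : ℕ, i + 1 < w.length →
      |(w.getD i ((0 : ℤ), (0 : ℤ))).1 - (w.getD (i + 1) ((0 : ℤ), (0 : ℤ))).1|
        + |(w.getD i ((0 : ℤ), (0 : ℤ))).2 - (w.getD (i + 1) ((0 : ℤ), (0 : ℤ))).2| = 1) ∧
    (∀ p ∈ w, (0 : ℤ) ≤ p.2)

lemma adj_pr (r : Wd) : ∀ i : ℕ, i + 1 < (pr r).length →
      |((pr r).getD i ((0 : ℤ), (0 : ℤ))).1 - ((pr r).getD (i + 1) ((0 : ℤ), (0 : ℤ))).1|
        + |((pr r).getD i ((0 : ℤ), (0 : ℤ))).2 - ((pr r).getD (i + 1) ((0 : ℤ), (0 : ℤ))).2| = 1 := by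
  induction r with
  | nil => intro i hi; simp at hi
  | cons d r ih =>
    intro i hi
    cases i with
    | zero =>
      have h0 : (pr (d :: r)).getD 0 (0, 0) = (X (d :: r), Y (d :: r)) := rfl
      have h1 : (pr (d :: r)).getD (0 + 1) (0, 0) = (X r, Y r) := by
        cases r with
        | nil => rfl
        | cons e r => rfl
      rw [h0, h1]
      simp only [X_cons, Y_cons, add_sub_cancel_right]
      fin_cases d <;> simp [vx, vy]
    | succ i =>
      have h0 : (pr (d :: r)).getD (i + 1) (0, 0) = (pr r).getD i (0, 0) := by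
        rw [pr_cons]; simp
      have h1 : (pr (d :: r)).getD (i + 1 + 1) (0, 0) = (pr r).getD (i + 1) (0, 0) := by
        rw [pr_cons]; simp
      rw [h0, h1]
      apply ih
      rw [pr_length] at hi ⊢
      simp at hi
      omega

lemma tr_pr (r : Wd) : Tr (pr r) ↔ TH r.reverse := by
  unfold Tr TH
  constructor
  · rintro ⟨h1, _, _, h4⟩
    refine ⟨((nodup_pr r).mp h1).rev', ?_⟩
    intro a b hab
    have h5 : r = b.reverse ++ a.reverse := by
      rw [← List.reverse_append, ← hab, List.reverse_reverse]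
    have := h4 (X a.reverse, Y a.reverse) (mem_pr.mpr ⟨a.reverse, b.reverse, h5, rfl⟩)
    simpa using this
  · rintro ⟨h1, h2⟩
    refine ⟨?_, getLast_pr r, adj_pr r, ?_⟩
    · rw [nodup_pr]
      have := h1.rev'
      rwa [List.reverse_reverse] at this
    · intro p hp
      obtain ⟨s, t, rfl, rfl⟩ := mem_pr.mp hp
      have := h2 s.reverse t.reverse (by simp)
      simpa using this

lemma step_cases {a b : ℤ} (h : |a| + |b| = 1) :
    ∃ d : Fin 4, a = vx d ∧ b = vy d := by
  have ha : |a| ≤ 1 := by have := abs_nonneg b; linarith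
  have hb : |b| ≤ 1 := by have := abs_nonneg a; linarith
  rw [abs_le] at ha hb
  have ha' : a = -1 ∨ a = 0 ∨ a = 1 := by omega
  have hb' : b = -1 ∨ b = 0 ∨ b = 1 := by omega
  rcases ha' with rfl | rfl | rfl <;> rcases hb' with rfl | rfl | rfl <;> simp at h
  · exact ⟨1, rfl, rfl⟩
  · exact ⟨3, rfl, rfl⟩
  · exact ⟨2, rfl, rfl⟩
  · exact ⟨0, rfl, rfl⟩

lemma exists_pr : ∀ w : List (ℤ × ℤ), Tr w → ∃ r, w = pr r := by
  intro w
  induction w with
  | nil => intro h; simp [Tr] at h
  | cons p w ih =>
    intro h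
    cases w with
    | nil =>
      refine ⟨[], ?_⟩
      have := h.2.1
      simp at this
      rw [this]; rfl
    | cons q w =>
      have hT : Tr (q :: w) := by
        obtain ⟨h1, h2, h3, h4⟩ := h
        refine ⟨(List.nodup_cons.mp h1).2, ?_, ?_, ?_⟩
        · rw [List.getLast?_cons_cons] at h2; exact h2
        · intro i hi
          have := h3 (i + 1) (by simp at hi ⊢; omega)
          simpa using this
        · intro x hx
          exact h4 x (List.mem_cons_of_mem _ hx)
      obtain ⟨r, hr⟩ := ih hT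
      have h0 := h.2.2.1 0 (by simp)
      simp only [List.getD_cons_zero, List.getD_cons_succ, zero_add] at h0
      obtain ⟨d, hd1, hd2⟩ := step_cases h0
      refine ⟨d :: r, ?_⟩
      have hq : q = (X r, Y r) := by
        have := pr_head r
        rw [← hr] at this
        simpa using this
      rw [pr_cons, ← hr, X_cons, Y_cons]
      congr 1
      rw [hq] at hd1 hd2
      ext
      · simp only at hd1 ⊢; linarith
      · simp only at hd2 ⊢; linarith

lemma pr_step (r : Wd) (d : Fin 4) :
    ((pr r).headD (0, 0) + (vx d, vy d)) :: pr r = pr (d :: r) := by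
  rw [pr_head, pr_cons, X_cons, Y_cons, Prod.mk_add_mk, add_comm (X r), add_comm (Y r)]

lemma sum_dirs (f : ℤ × ℤ → ℝ) :
    (([((1 : ℤ), (0 : ℤ)), ((-1 : ℤ), (0 : ℤ)), ((0 : ℤ), (1 : ℤ)), ((0 : ℤ), (-1 : ℤ))]
                : List (ℤ × ℤ)).map f).sum = ∑ d : Fin 4, f (vx d, vy d) := by
  rw [Fin.sum_univ_four]
  simp only [List.map_cons, List.map_nil, List.sum_cons, List.sum_nil]
  have h0 : (vx 0, vy 0) = (1, 0) := rfl
  have h1 : (vx 1, vy 1) = (-1, 0) := rfl
  have h2 : (vx 2, vy 2) = (0, 1) := rfl
  have h3 : (vx 3, vy 3) = (0, -1) := rfl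
  rw [h0, h1, h2, h3]
  ring

end Pool.Agent.SawTree
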