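import Pool.Agent.SawTree.Weights

open scoped ENNReal
open Filter Topology

namespace Pool.Agent.SawTree

lemma Wt_mono_z {z z' : ℝ≥0∞} (h : z ≤ z') (S : Set Wd) : Wt z S ≤ Wt z' S := by
  unfold Wt
  exact ENNReal.tsum_le_tsum (fun u => pow_le_pow_left' h _)

/-- critical point of the bridge series -/
noncomputable def crit : ℝ≥0∞ := sSup {z | Wt z {u | Br u} ≠ ⊤}

lemma fin_of_lt_crit {z : ℝ≥0∞} (h : z < crit) : Wt z {u | Br u} ≠ ⊤ := by
  obtain ⟨z', hz', hlt⟩ := lt_sSup_iff.mp h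
  exact ne_top_of_le_ne_top hz' (Wt_mono_z hlt.le _)

lemma inf_of_crit_lt {z : ℝ≥0∞} (h : crit < z) : Wt z {u | Br u} = ⊤ := by
  by_contra hcon
  exact absurd (le_sSup (s := {z | Wt z {u | Br u} ≠ ⊤}) hcon) (not_le_of_gt h)

lemma le_one_of_pow_le {x c : ℝ≥0∞} (hc : c ≠ ⊤) (h : ∀ k : ℕ, x ^ k ≤ c) : x ≤ 1 := by
  by_contra hcon
  push Not at hcon
  have ht := (ENNReal.tendsto_pow_atTop_nhds_top_iff (r := x)).mpr hcon
  have hev := ht.eventually (lt_mem_nhds (lt_top_iff_ne_top.mpr hc))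
  obtain ⟨k, hk⟩ := hev.exists
  exact absurd (h k) (not_le_of_gt hk)

/-- bound at the critical point from bounds below it -/
lemma Wt_crit_le {S : Set Wd} {z : ℝ≥0∞} (hz0 : 0 < z) (hz : z ≤ crit)
    (h : ∀ z' < crit, Wt z' S ≤ 1) : Wt z S ≤ 1 := by
  rcases lt_or_eq_of_le hz with h1 | h1
  · exact h z h1
  · apply Wt_le_of_finite
    intro F hF
    have hcl : IsClosed {x : ℝ≥0∞ | ∑ u ∈ F, x ^ u.length ≤ 1} := by
      apply isClosed_le _ continuous_const
      exact continuous_finsetSum _ (fun u _ => ENNReal.continuous_pow _)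
    have hsub : Set.Iio crit ⊆ {x : ℝ≥0∞ | ∑ u ∈ F, x ^ u.length ≤ 1} := by
      intro x hx
      exact le_trans (sum_le_Wt F hF) (h x hx)
    have hne : (Set.Iio crit).Nonempty := ⟨0, lt_of_lt_of_le hz0 hz⟩
    have h2 := hcl.closure_subset_iff.mpr hsub
    rw [closure_Iio' hne] at h2
    exact h2 hz

/-- concatenations of `k` irreducible bridges from the set `S` -/
def Kf (S : Set Wd) : ℕ → Set Wd
  | 0 => {[]}
  | (k + 1) => {w | ∃ a ∈ S, ∃ b ∈ Kf S k, w = a ++ b}

lemma Kf_br {S : Set Wd} (hS : ∀ u ∈ S, Irr u) (k : ℕ) : ∀ u ∈ Kf S k, Br u := by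
  induction k with
  | zero =>
    intro u hu
    have : u = [] := hu
    rw [this]; exact br_nil
  | succ k ih =>
    rintro u ⟨a, ha, b, hb, rfl⟩
    exact (hS a ha).1.append (ih b hb)

lemma pow_le_Kf {z : ℝ≥0∞} {S : Set Wd} (hS : ∀ u ∈ S, Irr u) (k : ℕ) :
    (Wt z S) ^ k ≤ Wt z (Kf S k) := by
  induction k with
  | zero =>
    simp only [pow_zero, Kf]
    rw [Wt_singleton]; simp
  | succ k ih =>
    rw [pow_succ']
    refine le_trans (mul_le_mul_right ih _) ?_
    apply Wt_mul_le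
    · intro u hu v hv
      exact ⟨u, hu, v, hv, rfl⟩
    · intro u hu v hv u' hu' v' hv' h
      exact irr_unique (hS u hu) (Kf_br hS k v hv) (hS u' hu') (Kf_br hS k v' hv') h

lemma Kf_le_pow {z : ℝ≥0∞} {S : Set Wd} (k : ℕ) :
    Wt z (Kf S k) ≤ (Wt z S) ^ k := by
  induction k with
  | zero =>
    simp only [pow_zero, Kf]
    rw [Wt_singleton]; simp
  | succ k ih =>
    rw [pow_succ']
    refine le_trans ?_ (mul_le_mul_right ih _)
    apply Wt_le_append
    rintro w ⟨a, ha, b, hb, rfl⟩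
    exact ⟨a, ha, b, hb, rfl⟩

lemma irr_le_one {z : ℝ≥0∞} (hz0 : 0 < z) (hz : z ≤ crit) : Wt z {u | Irr u} ≤ 1 := by
  apply Wt_crit_le hz0 hz
  intro z' hz'
  apply le_one_of_pow_le (fin_of_lt_crit hz')
  intro k
  exact le_trans (pow_le_Kf (fun u hu => hu) k) (Wt_mono (Kf_br (fun u hu => hu) k))

/-- bridges of span `A` -/
def BrA (A : ℤ) : Set Wd := {u | Br u ∧ X u = A}

lemma BrA_mul (z : ℝ≥0∞) (A B : ℤ) : Wt z (BrA A) * Wt z (BrA B) ≤ Wt z (BrA (A + B)) := by
  apply Wt_mul_le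
  · rintro u ⟨hu, hu'⟩ v ⟨hv, hv'⟩
    exact ⟨hu.append hv, by rw [X_append, hu', hv']⟩
  · rintro u ⟨hu, hu'⟩ v ⟨hv, hv'⟩ u1 ⟨h1, h1'⟩ v1 ⟨h2, h2'⟩ h
    exact span_unique hu h1 (hu'.trans h1'.symm) h

lemma BrA_pow (z : ℝ≥0∞) (A : ℤ) (k : ℕ) : (Wt z (BrA A)) ^ k ≤ Wt z (BrA (k * A)) := by
  induction k with
  | zero =>
    simp only [pow_zero, Nat.cast_zero, zero_mul]
    have h : ({[]} : Set Wd) ⊆ BrA 0 := by
      intro u hu
      have : u = [] := hu
      rw [this]
      exact ⟨br_nil, rfl⟩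
    calc (1 : ℝ≥0∞) = Wt z {([] : Wd)} := by rw [Wt_singleton]; simp
      _ ≤ _ := Wt_mono h
  | succ k ih =>
    rw [pow_succ]
    refine le_trans (mul_le_mul_left ih _) ?_
    refine le_trans (BrA_mul z _ _) ?_
    have : (k : ℤ) * A + A = ((k + 1 : ℕ) : ℤ) * A := by push_cast; ring
    rw [this]

lemma span_le_one {z : ℝ≥0∞} (hz0 : 0 < z) (hz : z ≤ crit) (A : ℤ) : Wt z (BrA A) ≤ 1 := by
  apply Wt_crit_le hz0 hz
  intro z' hz'
  apply le_one_of_pow_le (fin_of_lt_crit hz')
  intro k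
  exact le_trans (BrA_pow z' A k) (Wt_mono (fun u hu => hu.1))

/-- words with letters right and up only -/
lemma XY_len (u : Wd) (h : ∀ d ∈ u, d = 0 ∨ d = 2) : 0 ≤ X u ∧ X u + Y u = u.length := by
  induction u with
  | nil => simp
  | cons a u ih =>
    have h1 := ih (fun d hd => h d (List.mem_cons_of_mem _ hd))
    have h2 := h a List.mem_cons_self
    rcases h2 with h2 | h2 <;> subst h2 <;> simp [vx, vy] <;> omega

/-- the tall irreducible bridge -/
def tall (L : ℕ) : Wd := List.replicate L 2 ++ [0]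

lemma tall_mem (L : ℕ) : ∀ d ∈ tall L, d = 0 ∨ d = 2 := by
  intro d hd
  unfold tall at hd
  rw [List.mem_append] at hd
  rcases hd with hd | hd
  · right; exact (List.mem_replicate.mp hd).2
  · left; simpa using hd

lemma tall_irr (L : ℕ) : Irr (tall L) := by
  have hpos : SufPos (tall L) := by
    intro a b h hb
    have hbm : ∀ d ∈ b, d = 0 ∨ d = 2 := fun d hd => tall_mem L d (by rw [h]; simp [hd])
    -- the last letter of `b` is `0`
    obtain ⟨b', e, hbe⟩ : ∃ b' e, b = b' ++ [e] := by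
      refine ⟨b.dropLast, b.getLast hb, ?_⟩
      exact (List.dropLast_append_getLast hb).symm
    have he : e = 0 := by
      unfold tall at h
      rw [hbe, ← List.append_assoc] at h
      have := List.append_inj_right' h (by simp)
      simpa using this.symm
    rw [hbe, X_append]
    have h1 := XY_len b' (fun d hd => hbm d (by rw [hbe]; simp [hd]))
    rw [he]
    simp [vx]
    omega
  refine ⟨⟨?_, ?_, hpos⟩, ?_, ?_⟩
  · intro a b c h hb
    have h1 := XY_len b (fun d hd => tall_mem L d (by rw [h]; simp [hd]))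
    rintro ⟨hx, hy⟩
    have : (b.length : ℤ) = 0 := by rw [← h1.2, hx, hy]; simp
    have h2 : b.length = 0 := by exact_mod_cast this
    exact hb (List.length_eq_zero_iff.mp h2)
  · intro a b h
    exact (XY_len a (fun d hd => tall_mem L d (by rw [h]; simp [hd]))).1
  · unfold tall; simp
  · intro a b h ha hb
    by_contra hcon
    push Not at hcon
    obtain ⟨h1, h2⟩ := hcon
    -- `a` is a prefix of `replicate L 2`
    have hall : ∀ d ∈ a, d = 2 := by
      unfold tall at h
      rcases List.append_eq_append_iff.mp h with ⟨a', h3, h4⟩ | ⟨c', h3, h4⟩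
      · -- a = replicate ++ a', [0] = a' ++ b
        have : a' = [] := by
          have hlen := congrArg List.length h4
          simp at hlen
          have : 0 < b.length := List.length_pos_iff.mpr h2
          exact List.length_eq_zero_iff.mp (by omega)
        subst this
        simp at h3
        intro d hd
        rw [h3] at hd
        exact (List.mem_replicate.mp hd).2
      · intro d hd
        have : d ∈ List.replicate L (2 : Fin 4) := by rw [h3]; simp [hd]
        exact (List.mem_replicate.mp this).2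
    have hX : X a = 0 := by
      have : a = List.replicate a.length 2 := List.eq_replicate_iff.mpr ⟨rfl, hall⟩
      rw [this]
      simp [X, vx]
    have := ha.2.2 [] a (by simp) h1
    omega

lemma tall_not_ext (L : ℕ) : ¬ Ext L (tall L) := by
  intro h
  have := h [] (List.replicate L 2) [0] (by simp [tall])
  simp [Y, vy] at this

/-- irreducible bridges of extent less than `L` -/
def IrrL (L : ℕ) : Set Wd := {u | Irr u ∧ Ext L u}
/-- bridges of extent less than `L` -/
def BrL (L : ℕ) : Set Wd := {u | Br u ∧ Ext L u}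

lemma irrL_lt_one {z : ℝ≥0∞} (hz0 : 0 < z) (hz : z ≤ crit) (L : ℕ) : Wt z (IrrL L) < 1 := by
  have h1 : Wt z (IrrL L) + Wt z {tall L} ≤ Wt z {u | Irr u} := by
    apply Wt_disj
    · rw [Set.disjoint_singleton_right]
      intro h
      exact tall_not_ext L h.2
    · intro u hu; exact hu.1
    · intro u hu
      have : u = tall L := hu
      rw [this]; exact tall_irr L
  rw [Wt_singleton] at h1
  have h2 := le_trans h1 (irr_le_one hz0 hz)
  have hpos : 0 < z ^ (tall L).length := by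
    apply pos_iff_ne_zero.mpr
    exact pow_ne_zero _ hz0.ne'
  have hfin : Wt z (IrrL L) ≠ ⊤ := by
    apply ne_top_of_le_ne_top ENNReal.one_ne_top
    exact le_trans le_self_add h2
  exact lt_of_lt_of_le (ENNReal.lt_add_right hfin hpos.ne') h2

lemma brL_decomp (L : ℕ) : ∀ n : ℕ, ∀ u : Wd, u.length ≤ n → u ∈ BrL L →
    ∃ k, u ∈ Kf (IrrL L) k := by
  intro n
  induction n with
  | zero =>
    intro u hu _
    refine ⟨0, ?_⟩
    exact List.length_eq_zero_iff.mp (by omega)
  | succ n ih =>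
    intro u hu hB
    by_cases hne : u = []
    · exact ⟨0, hne⟩
    · obtain ⟨a, b, h1, h2, h3⟩ := exists_first hB.1 hne
      have hapos : 0 < a.length := List.length_pos_iff.mpr h2.2.1
      have hlen : b.length ≤ n := by
        rw [h1, List.length_append] at hu
        omega
      obtain ⟨k, hk⟩ := ih b hlen ⟨h3, hB.2.right h1⟩
      exact ⟨k + 1, a, ⟨h2, hB.2.left h1⟩, b, hk, h1⟩

/-- The bridge series in a strip converges at the critical point. -/
lemma brL_fin {z : ℝ≥0∞} (hz0 : 0 < z) (hz : z ≤ crit) (L : ℕ) : Wt z (BrL L) ≠ ⊤ := by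
  have h1 : Wt z (BrL L) ≤ ∑' k, (Wt z (IrrL L)) ^ k := by
    calc Wt z (BrL L) ≤ Wt z (⋃ k, Kf (IrrL L) k) := by
          apply Wt_mono
          intro u hu
          obtain ⟨k, hk⟩ := brL_decomp L u.length u (le_refl _) hu
          exact Set.mem_iUnion.mpr ⟨k, hk⟩
      _ ≤ ∑' k, Wt z (Kf (IrrL L) k) := Wt_iUnion_le _
      _ ≤ ∑' k, (Wt z (IrrL L)) ^ k := ENNReal.tsum_le_tsum (fun k => Kf_le_pow k)
  rw [ENNReal.tsum_geometric] at h1
  apply ne_top_of_le_ne_top _ h1
  rw [ENNReal.inv_ne_top]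
  have := irrL_lt_one hz0 hz L
  exact (tsub_pos_of_lt this).ne'

end Pool.Agent.SawTree
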