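import Pool.Agent.SawTree.Strip

open scoped ENNReal
open Filter Topology

namespace Pool.Agent.SawTree

/-- self-avoiding words staying in the upper half-plane -/
def TH (u : Wd) : Prop := Saw u ∧ ∀ a b, u = a ++ b → 0 ≤ Y a

/-- Existence of finite cutsets: stop at the first word satisfying `stop`, or after `k` steps. -/
lemma exists_cut (θ : Wd → ℝ) (h0 : ∀ u, ¬ TH u → θ u = 0)
    (hflow : ∀ u, TH u → θ u = ∑ d : Fin 4, θ (u ++ [d])) (stop : Wd → Prop) (k : ℕ) :
    ∀ u : Wd, ∃ P : Finset Wd, (∀ v ∈ P, TH v ∧ ∃ r, v = u ++ r ∧ r.length ≤ k ∧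
      (stop v ∨ r.length = k) ∧ ∀ p q, r = p ++ q → q ≠ [] → ¬ stop (u ++ p)) ∧
      ∑ v ∈ P, θ v = θ u := by
  classical
  induction k with
  | zero =>
    intro u
    by_cases hu : TH u
    · refine ⟨{u}, ?_, by simp⟩
      intro v hv
      rw [Finset.mem_singleton] at hv
      subst hv
      refine ⟨hu, [], by simp, by simp, Or.inr rfl, ?_⟩
      intro p q hpq hq
      simp at hpq
      exact absurd hpq.2 hq
    · exact ⟨∅, by simp, by simp [h0 u hu]⟩
  | succ k ih =>
    intro u
    by_cases hu : TH u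
    · by_cases hs : stop u
      · refine ⟨{u}, ?_, by simp⟩
        intro v hv
        rw [Finset.mem_singleton] at hv
        subst hv
        refine ⟨hu, [], by simp, by simp, Or.inl hs, ?_⟩
        intro p q hpq hq
        simp at hpq
        exact absurd hpq.2 hq
      · choose P hP1 hP2 using fun d : Fin 4 => ih (u ++ [d])
        refine ⟨Finset.univ.biUnion P, ?_, ?_⟩
        · intro v hv
          rw [Finset.mem_biUnion] at hv
          obtain ⟨d, _, hd⟩ := hv
          obtain ⟨h1, r, h2, h3, h4, h5⟩ := hP1 d v hd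
          refine ⟨h1, d :: r, by rw [h2]; simp, by simp; omega, ?_, ?_⟩
          · rcases h4 with h4 | h4
            · exact Or.inl h4
            · right; simp [h4]
          · intro p q hpq hq
            rcases List.append_eq_cons_iff.mp hpq.symm with ⟨h6, _⟩ | ⟨p', h6, h7⟩
            · rw [h6]; simpa using hs
            · have := h5 p' q h7 hq
              rw [h6]
              simpa using this
        · rw [Finset.sum_biUnion]
          · rw [hflow u hu]
            exact Finset.sum_congr rfl (fun d _ => hP2 d)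
          · intro d _ d' _ hne
            rw [Function.onFun, Finset.disjoint_left]
            intro v hv hv'
            obtain ⟨_, r, h2, _⟩ := hP1 d v hv
            obtain ⟨_, r', h2', _⟩ := hP1 d' v hv'
            rw [h2, List.append_assoc, List.append_assoc] at h2'
            have := List.append_cancel_left h2'
            simp at this
            exact hne this.1
    · exact ⟨∅, by simp, by simp [h0 u hu]⟩

lemma Y_lt_of_ne {L : ℕ} (hL : 0 < L) (u : Wd) (h : ∀ p q, u = p ++ q → Y p ≠ L) : Y u < L := by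
  induction u using List.reverseRecOn with
  | nil => simpa using hL
  | append_singleton u d ih =>
    have h1 := ih (fun p q hpq => h p (q ++ [d]) (by rw [hpq]; simp))
    have h2 := h (u ++ [d]) [] (by simp)
    rw [Y_append] at h2 ⊢
    have h3 : Y [d] ≤ 1 := by
      rw [Y_cons, Y_nil]
      fin_cases d <;> simp [vy]
    omega

/-- first passage words to height `L` -/
def FP (L : ℕ) : Set Wd := {u | Saw u ∧ (∀ a b, u = a ++ b → 0 ≤ Y a) ∧ Y u = L ∧
  ∀ a b, u = a ++ b → b ≠ [] → Y a < L}

lemma FP_le {z : ℝ≥0∞} (hz0 : 0 < z) (hz : z ≤ crit) (L : ℕ) : Wt z (FP L) ≤ 1 := by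
  refine le_trans ?_ (span_le_one hz0 hz L)
  have hmem : ∀ u ∈ FP L, u.map swp ∈ BrA L := by
    rintro u ⟨h1, h2, h3, h4⟩
    refine ⟨⟨h1.swp', ?_, ?_⟩, ?_⟩
    · intro a b hab
      have e : u = a.map swp ++ b.map swp := by rw [← swp_swp u, hab]; simp
      have := h2 _ _ e
      rwa [Y_swp] at this
    · intro a b hab hb
      have e : u = a.map swp ++ b.map swp := by rw [← swp_swp u, hab]; simp
      have h5 := h4 _ _ e (by simpa using hb)
      have h6 : Y u = Y (a.map swp) + Y (b.map swp) := by rw [e]; simp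
      rw [Y_swp] at h5 h6
      rw [Y_swp] at h6
      omega
    · show X (u.map swp) = L
      rw [X_swp, h3]
  apply Wt_inj (fun u => ⟨(u : Wd).map swp, hmem u u.2⟩)
  · intro a b hab
    have h : (a : Wd).map swp = (b : Wd).map swp := congrArg (fun t : BrA L => (t : Wd)) hab
    apply Subtype.ext
    rw [← swp_swp (a : Wd), h, swp_swp]
  · intro u; simp

/-- some late level of the strip has weight at most one -/
lemma exists_level {z : ℝ≥0∞} (hz0 : 0 < z) (hz : z ≤ crit) (L N : ℕ) :
    ∃ m, N ≤ m ∧ Wt z {u | u ∈ St L ∧ u.length = m} ≤ 1 := by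
  by_contra hcon
  push Not at hcon
  have hsum : ∀ n : ℕ, ∑ m ∈ Finset.range n, Wt z {u | u ∈ St L ∧ u.length = N + m}
      ≤ Wt z {u | u ∈ St L ∧ u.length < N + n} := by
    intro n
    induction n with
    | zero => simp
    | succ n ih =>
      rw [Finset.sum_range_succ]
      refine le_trans (add_le_add_left ih _) ?_
      apply Wt_disj
      · rw [Set.disjoint_left]
        rintro u ⟨_, h1⟩ ⟨_, h2⟩
        omega
      · rintro u ⟨h1, h2⟩
        exact ⟨h1, by omega⟩
      · rintro u ⟨h1, h2⟩
        exact ⟨h1, by omega⟩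
  have hlow : ∀ n : ℕ, (n : ℝ≥0∞) ≤ Wt z (St L) := by
    intro n
    calc (n : ℝ≥0∞) = ∑ _m ∈ Finset.range n, (1 : ℝ≥0∞) := by simp
      _ ≤ ∑ m ∈ Finset.range n, Wt z {u | u ∈ St L ∧ u.length = N + m} :=
          Finset.sum_le_sum (fun m _ => (hcon (N + m) (by omega)).le)
      _ ≤ Wt z {u | u ∈ St L ∧ u.length < N + n} := hsum n
      _ ≤ Wt z (St L) := Wt_mono (fun u hu => hu.1)
  have hfin := St_fin hz0 hz L
  obtain ⟨n, hn⟩ := ENNReal.exists_nat_gt hfin
  exact absurd (hlow n) (not_le_of_gt hn)

/-- **Recurrence at and below the critical point of the bridge series.** -/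
theorem no_flow {b : ℝ} (hb : 0 < b) (hbc : ENNReal.ofReal b ≤ crit) (θ : Wd → ℝ)
    (h0 : ∀ u, ¬ TH u → θ u = 0) (h1 : θ [] = 1)
    (hflow : ∀ u, TH u → θ u = ∑ d : Fin 4, θ (u ++ [d]))
    (hsum : Summable (fun u : Wd => θ u ^ 2 / b ^ (u.length + 1))) : False := by
  classical
  set z := ENNReal.ofReal b with hz
  have hz0 : 0 < z := ENNReal.ofReal_pos.mpr hb
  set K : ℝ := 2 * b with hK
  have hK0 : 0 < K := by positivity
  -- small tail
  obtain ⟨s, hs⟩ := summable_iff_vanishing_norm.mp hsum (1 / (2 * K)) (by positivity)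
  set N := s.sup List.length with hN
  set L := N + 1 with hL
  obtain ⟨m, hm1, hm2⟩ := exists_level hz0 hbc L (N + 1)
  obtain ⟨P, hP1, hP2⟩ := exists_cut θ h0 hflow (fun v => Y v = L) m []
  rw [h1] at hP2
  -- classification of the elements of the cutset
  have hcl : ∀ v ∈ P, N < v.length ∧ (v ∈ FP L ∨ v ∈ {u | u ∈ St L ∧ u.length = m}) := by
    intro v hv
    obtain ⟨hTH, r, hr1, hr2, hr3, hr4⟩ := hP1 v hv
    simp only [List.nil_append] at hr1 hr4
    subst hr1
    have hlt : ∀ a b, v = a ++ b → b ≠ [] → Y a < L := by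
      intro a b hab hb
      apply Y_lt_of_ne (by omega)
      intro p q hpq
      apply hr4 p (q ++ b) (by rw [hab, hpq]; simp)
      simp [hb]
    by_cases hst : Y v = L
    · have hYlen : ∀ u : Wd, |Y u| ≤ u.length := by
        intro u
        have := X_le_length (u.map swp)
        rwa [X_swp, List.length_map] at this
      refine ⟨?_, Or.inl ⟨hTH.1, hTH.2, hst, hlt⟩⟩
      have h2 := hYlen v
      rw [hst] at h2
      have h3 := le_abs_self ((L : ℕ) : ℤ)
      have : (L : ℤ) ≤ v.length := le_trans h3 h2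
      have : L ≤ v.length := by exact_mod_cast this
      omega
    · have hlen : v.length = m := by
        rcases hr3 with h | h
        · exact absurd h hst
        · exact h
      refine ⟨by omega, Or.inr ⟨⟨hTH.1, ?_⟩, hlen⟩⟩
      have hlt' : ∀ a b, v = a ++ b → Y a < L := by
        intro a b hab
        by_cases hb : b = []
        · apply Y_lt_of_ne (by omega)
          intro p q hpq
          by_cases hq : q = []
          · subst hq; subst hb
            simp at hab hpq
            rw [← hpq, ← hab]; exact hst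
          · subst hb
            simp at hab
            exact hr4 p q (by rw [hab, hpq]) hq
        · exact hlt a b hab hb
      intro a b c habc
      have e1 := hTH.2 a (b ++ c) (by rw [habc]; simp)
      have e2 := hTH.2 (a ++ b) c (by rw [habc])
      have e3 := hlt' a (b ++ c) (by rw [habc]; simp)
      have e4 := hlt' (a ++ b) c (by rw [habc])
      rw [Y_append] at e2 e4
      rw [abs_lt]
      omega
  -- total weight of the cutset
  have hw : ∑ v ∈ P, b ^ v.length ≤ 2 := by
    have e1 : ∑ v ∈ P, z ^ v.length ≤ 2 := by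
      calc ∑ v ∈ P, z ^ v.length ≤ Wt z (FP L ∪ {u | u ∈ St L ∧ u.length = m}) :=
            sum_le_Wt P (fun v hv => (hcl v hv).2)
        _ ≤ Wt z (FP L) + Wt z {u | u ∈ St L ∧ u.length = m} := Wt_union_le _ _
        _ ≤ 1 + 1 := add_le_add (FP_le hz0 hbc L) hm2
        _ = 2 := by norm_num
    have e2 : ∑ v ∈ P, z ^ v.length = ENNReal.ofReal (∑ v ∈ P, b ^ v.length) := by
      rw [ENNReal.ofReal_sum_of_nonneg (fun v _ => by positivity)]
      apply Finset.sum_congr rfl
      intro v _
      rw [hz, ENNReal.ofReal_pow hb.le]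
    rw [e2] at e1
    have e3 : (2 : ℝ≥0∞) = ENNReal.ofReal 2 := by simp
    rw [e3] at e1
    exact (ENNReal.ofReal_le_ofReal_iff (by norm_num)).mp e1
  -- Cauchy --Schwarz
  have hcs : (∑ v ∈ P, θ v) ^ 2 ≤ (∑ v ∈ P, θ v ^ 2 / b ^ (v.length + 1)) *
      (∑ v ∈ P, b ^ (v.length + 1)) := by
    apply Finset.sum_sq_le_sum_mul_sum_of_sq_le_mul
    · intro v _; positivity
    · intro v _; positivity
    · intro v _
      apply le_of_eq
      field_simp
  rw [hP2] at hcs
  have hw2 : ∑ v ∈ P, b ^ (v.length + 1) ≤ K := by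
    have : ∑ v ∈ P, b ^ (v.length + 1) = b * ∑ v ∈ P, b ^ v.length := by
      rw [Finset.mul_sum]
      exact Finset.sum_congr rfl (fun v _ => by ring)
    rw [this, hK]
    nlinarith
  have hdis : Disjoint P s := by
    rw [Finset.disjoint_left]
    intro v hv hvs
    have h2 := (hcl v hv).1
    have h3 : v.length ≤ N := Finset.le_sup (f := List.length) hvs
    omega
  have htail := hs P hdis
  have hnn : 0 ≤ ∑ v ∈ P, θ v ^ 2 / b ^ (v.length + 1) :=
    Finset.sum_nonneg (fun v _ => by positivity)
  rw [Real.norm_of_nonneg hnn] at htail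
  have h5 : (∑ v ∈ P, θ v ^ 2 / b ^ (v.length + 1)) * (∑ v ∈ P, b ^ (v.length + 1))
      ≤ (1 / (2 * K)) * K := by
    apply mul_le_mul htail.le hw2 _ (by positivity)
    exact Finset.sum_nonneg (fun v _ => by positivity)
  have h6 : (1 / (2 * K)) * K = 1 / 2 := by field_simp
  rw [h6] at h5
  norm_num at hcs
  linarith

end Pool.Agent.SawTree
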