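import Pool.Agent.SawTree.Critical

open scoped ENNReal
open Filter Topology

namespace Pool.Agent.SawTree

/-- horizontal reflection of steps -/
def refl : Fin 4 → Fin 4 := ![1, 0, 2, 3]
/-- exchange of the coordinates -/
def swp : Fin 4 → Fin 4 := ![2, 3, 0, 1]

lemma refl_refl (u : Wd) : (u.map refl).map refl = u := by
  rw [List.map_map]
  have : refl ∘ refl = id := by funext i; fin_cases i <;> rfl
  rw [this, List.map_id]

lemma swp_swp (u : Wd) : (u.map swp).map swp = u := by
  rw [List.map_map]
  have : swp ∘ swp = id := by funext i; fin_cases i <;> rfl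
  rw [this, List.map_id]

@[simp] lemma X_refl (u : Wd) : X (u.map refl) = - X u := by
  induction u with
  | nil => simp
  | cons a u ih =>
    simp only [List.map_cons, X_cons, ih]
    have : vx (refl a) = - vx a := by fin_cases a <;> rfl
    rw [this]; ring

@[simp] lemma Y_refl (u : Wd) : Y (u.map refl) = Y u := by
  induction u with
  | nil => simp
  | cons a u ih =>
    simp only [List.map_cons, Y_cons, ih]
    have : vy (refl a) = vy a := by fin_cases a <;> rfl
    rw [this]

@[simp] lemma X_swp (u : Wd) : X (u.map swp) = Y u := by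
  induction u with
  | nil => simp
  | cons a u ih =>
    simp only [List.map_cons, X_cons, Y_cons, ih]
    have : vx (swp a) = vy a := by fin_cases a <;> rfl
    rw [this]

@[simp] lemma Y_swp (u : Wd) : Y (u.map swp) = X u := by
  induction u with
  | nil => simp
  | cons a u ih =>
    simp only [List.map_cons, X_cons, Y_cons, ih]
    have : vy (swp a) = vx a := by fin_cases a <;> rfl
    rw [this]

lemma Saw.refl' {u : Wd} (h : Saw u) : Saw (u.map refl) := by
  intro a b c e hb
  have e' : u = a.map refl ++ b.map refl ++ c.map refl := by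
    rw [← refl_refl u, e]; simp
  have := h _ _ _ e' (by simpa using hb)
  rw [X_refl, Y_refl] at this
  intro hh
  exact this ⟨by omega, hh.2⟩

lemma Saw.swp' {u : Wd} (h : Saw u) : Saw (u.map swp) := by
  intro a b c e hb
  have e' : u = a.map swp ++ b.map swp ++ c.map swp := by
    rw [← swp_swp u, e]; simp
  have := h _ _ _ e' (by simpa using hb)
  rw [X_swp, Y_swp] at this
  intro hh
  exact this ⟨hh.2, hh.1⟩

lemma Saw.rev' {u : Wd} (h : Saw u) : Saw u.reverse := by
  intro a b c e hb
  have e' : u = c.reverse ++ b.reverse ++ a.reverse := by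
    rw [← List.reverse_reverse u, e]; simp
  have := h _ _ _ e' (by simpa using hb)
  rw [X_reverse, Y_reverse] at this
  exact this

lemma Ext.refl' {L : ℕ} {u : Wd} (h : Ext L u) : Ext L (u.map refl) := by
  intro a b c e
  have e' : u = a.map refl ++ b.map refl ++ c.map refl := by
    rw [← refl_refl u, e]; simp
  have := h _ _ _ e'
  rwa [Y_refl] at this

lemma Ext.rev' {L : ℕ} {u : Wd} (h : Ext L u) : Ext L u.reverse := by
  intro a b c e
  have e' : u = c.reverse ++ b.reverse ++ a.reverse := by
    rw [← List.reverse_reverse u, e]; simp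
  have := h _ _ _ e'
  rwa [Y_reverse] at this

/-- half-space words in the strip, with maximal abscissa at most `A` -/
def Hs (L : ℕ) (A : ℕ) : Set Wd :=
  {u | Saw u ∧ Ext L u ∧ (∀ a b, u = a ++ b → a ≠ [] → 0 < X a) ∧ (∀ a b, u = a ++ b → X a ≤ A)}

/-- bridges of extent less than `L` and span `A` -/
def BrLA (L : ℕ) (A : ℕ) : Set Wd := {u | u ∈ BrL L ∧ X u = A}

/-- a last prefix with a given property -/
lemma exists_last_prefix (u : Wd) (P : Wd → Prop) (h : ∃ a b, u = a ++ b ∧ P a) :
    ∃ a b, u = a ++ b ∧ P a ∧ ∀ p q, b = p ++ q → p ≠ [] → ¬ P (a ++ p) := by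
  classical
  have hex : ∃ n, ∃ a b : Wd, u = a ++ b ∧ P a ∧ b.length = n := by
    obtain ⟨a, b, h1, h2⟩ := h
    exact ⟨b.length, a, b, h1, h2, rfl⟩
  obtain ⟨a, b, h1, h2, h3⟩ := Nat.find_spec hex
  refine ⟨a, b, h1, h2, ?_⟩
  intro p q hpq hp hP
  have hlen : q.length < b.length := by
    rw [hpq, List.length_append]
    have : 0 < p.length := List.length_pos_iff.mpr hp
    omega
  rw [h3] at hlen
  exact Nat.find_min hex hlen ⟨a ++ p, q, by rw [h1, hpq]; simp, hP, rfl⟩

lemma Hs_step (z : ℝ≥0∞) (L A : ℕ) :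
    Wt z (Hs L (A + 1)) ≤ Wt z (Hs L A) * (1 + Wt z (BrLA L (A + 1))) := by
  classical
  set R : Set Wd := {u | u ∈ Hs L (A + 1) ∧ ∃ a b, u = a ++ b ∧ X a = ((A + 1 : ℕ) : ℤ)} with hR
  have h1 : Hs L (A + 1) ⊆ Hs L A ∪ R := by
    intro u hu
    by_cases h : ∃ a b, u = a ++ b ∧ X a = ((A + 1 : ℕ) : ℤ)
    · right; exact ⟨hu, h⟩
    · left
      refine ⟨hu.1, hu.2.1, hu.2.2.1, ?_⟩
      intro a b hab
      have h2 := hu.2.2.2 a b hab
      have h3 : X a ≠ ((A + 1 : ℕ) : ℤ) := fun h4 => h ⟨a, b, hab, h4⟩
      push_cast at h2 h3 ⊢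
      omega
  have h2 : Wt z R ≤ Wt z (BrLA L (A + 1)) * Wt z (Hs L A) := by
    have hch : ∀ u : Wd, ∃ p : Wd × Wd, u ∈ R → u = p.1 ++ p.2 ∧ X p.1 = ((A + 1 : ℕ) : ℤ) ∧
        ∀ r s, p.2 = r ++ s → r ≠ [] → X (p.1 ++ r) ≠ ((A + 1 : ℕ) : ℤ) := by
      intro u
      by_cases hu : u ∈ R
      · obtain ⟨a, b, e1, e2, e3⟩ := exists_last_prefix u (fun a => X a = ((A + 1 : ℕ) : ℤ)) hu.2
        exact ⟨(a, b), fun _ => ⟨e1, e2, e3⟩⟩
      · exact ⟨([], []), fun h => absurd h hu⟩
    choose f hf using hch
    apply Wt_le_mul (fun u => ((f u).1.reverse, (f u).2.map refl))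
    · intro u hu
      obtain ⟨e1, e2, e3⟩ := hf u hu
      set a := (f u).1
      set b := (f u).2
      obtain ⟨⟨hS, hE, hP, hM⟩, _⟩ := hu
      have hSa := hS.left e1
      have hSb := hS.right e1
      have hEa := hE.left e1
      have hEb := hE.right e1
      refine ⟨⟨⟨⟨hSa.rev', ?_, ?_⟩, hEa.rev'⟩, ?_⟩, ⟨hSb.refl', hEb.refl', ?_, ?_⟩, ?_⟩
      · -- prefixes of the reverse
        intro p q hpq
        have hpq : a.reverse = p ++ q := hpq
        have e4 : a = q.reverse ++ p.reverse := by
          rw [← List.reverse_reverse a, hpq]; simp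
        have h5 := hM q.reverse (p.reverse ++ b) (by rw [e1, e4]; simp)
        have h6 : X a = X q + X p := by rw [e4]; simp
        rw [X_reverse] at h5
        rw [e2] at h6
        omega
      · intro p q hpq hq
        have hpq : a.reverse = p ++ q := hpq
        have e4 : a = q.reverse ++ p.reverse := by
          rw [← List.reverse_reverse a, hpq]; simp
        have h5 := hP q.reverse (p.reverse ++ b) (by rw [e1, e4]; simp) (by simpa using hq)
        rwa [X_reverse] at h5
      · show X a.reverse = _
        rw [X_reverse, e2]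
      · intro p q hpq hp
        have hpq : b.map refl = p ++ q := hpq
        have e4 : b = p.map refl ++ q.map refl := by
          rw [← refl_refl b, hpq]; simp
        have h5 := e3 (p.map refl) (q.map refl) e4 (by simpa using hp)
        have h6 := hM (a ++ p.map refl) (q.map refl) (by rw [e1, e4]; simp)
        rw [X_append, X_refl, e2] at h5 h6
        omega
      · intro p q hpq
        have hpq : b.map refl = p ++ q := hpq
        by_cases hp : p = []
        · subst hp; simp
        · have e4 : b = p.map refl ++ q.map refl := by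
            rw [← refl_refl b, hpq]; simp
          have h6 := hP (a ++ p.map refl) (q.map refl) (by rw [e1, e4]; simp) (by simp [hp])
          rw [X_append, X_refl, e2] at h6
          push_cast at h6
          omega
      · show u.length = a.reverse.length + (b.map refl).length
        conv_lhs => rw [e1]
        simp
    · intro u hu u' hu' he
      obtain ⟨e1, _, _⟩ := hf u hu
      obtain ⟨e1', _, _⟩ := hf u' hu'
      simp only [Prod.mk.injEq, List.reverse_inj] at he
      have h3 : (f u).2 = (f u').2 := by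
        rw [← refl_refl (f u).2, he.2, refl_refl]
      rw [e1, e1', he.1, h3]
  calc Wt z (Hs L (A + 1)) ≤ Wt z (Hs L A ∪ R) := Wt_mono h1
    _ ≤ Wt z (Hs L A) + Wt z R := Wt_union_le _ _
    _ ≤ Wt z (Hs L A) + Wt z (BrLA L (A + 1)) * Wt z (Hs L A) := by gcongr
    _ = Wt z (Hs L A) * (1 + Wt z (BrLA L (A + 1))) := by ring

lemma Hs_zero (z : ℝ≥0∞) (L : ℕ) : Wt z (Hs L 0) ≤ 1 := by
  have h : Hs L 0 ⊆ {[]} := by
    rintro u ⟨_, _, h3, h4⟩
    by_contra hne
    have h5 := h3 u [] (by simp) hne
    have h6 := h4 u [] (by simp)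
    simp at h6
    omega
  calc Wt z (Hs L 0) ≤ Wt z {([] : Wd)} := Wt_mono h
    _ = 1 := by rw [Wt_singleton]; simp

lemma BrLA_sum (z : ℝ≥0∞) (L n : ℕ) :
    ∑ A ∈ Finset.range n, Wt z (BrLA L (A + 1)) ≤ Wt z (BrL L) := by
  have key : ∑ A ∈ Finset.range n, Wt z (BrLA L (A + 1))
      ≤ Wt z {u | u ∈ BrL L ∧ X u ≤ n} := by
    induction n with
    | zero => simp
    | succ n ih =>
      rw [Finset.sum_range_succ]
      refine le_trans (add_le_add_left ih _) ?_
      apply Wt_disj
      · rw [Set.disjoint_left]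
        rintro u ⟨_, h1⟩ ⟨_, h2⟩
        rw [h2] at h1
        push_cast at h1
        omega
      · rintro u ⟨h1, h2⟩
        refine ⟨h1, ?_⟩
        push_cast
        omega
      · rintro u ⟨h1, h2⟩
        exact ⟨h1, h2.le⟩
  exact le_trans key (Wt_mono (fun u hu => hu.1))

lemma Hs_le (z : ℝ≥0∞) (L : ℕ) (hfin : Wt z (BrL L) ≠ ⊤) (A : ℕ) :
    Wt z (Hs L A) ≤ ENNReal.ofReal (Real.exp (Wt z (BrL L)).toReal) := by
  have key : ∀ A : ℕ, Wt z (Hs L A) ≤ ENNReal.ofReal
      (Real.exp (∑ k ∈ Finset.range A, Wt z (BrLA L (k + 1))).toReal) := by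
    intro A
    induction A with
    | zero => simpa using Hs_zero z L
    | succ A ih =>
      have hsub : Wt z (BrLA L (A + 1)) ≤ Wt z (BrL L) := Wt_mono (fun u hu => hu.1)
      have hg : Wt z (BrLA L (A + 1)) ≠ ⊤ := ne_top_of_le_ne_top hfin hsub
      have hs : ∑ k ∈ Finset.range A, Wt z (BrLA L (k + 1)) ≠ ⊤ :=
        ne_top_of_le_ne_top hfin (BrLA_sum z L A)
      rw [Finset.sum_range_succ, ENNReal.toReal_add hs hg, Real.exp_add,
        ENNReal.ofReal_mul (Real.exp_nonneg _)]
      refine le_trans (Hs_step z L A) ?_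
      apply mul_le_mul' ih
      have h1 : 1 + Wt z (BrLA L (A + 1))
          = ENNReal.ofReal (1 + (Wt z (BrLA L (A + 1))).toReal) := by
        rw [ENNReal.ofReal_add (by norm_num) ENNReal.toReal_nonneg, ENNReal.ofReal_one,
          ENNReal.ofReal_toReal hg]
      rw [h1]
      apply ENNReal.ofReal_le_ofReal
      have := Real.add_one_le_exp (Wt z (BrLA L (A + 1))).toReal
      linarith
  refine le_trans (key A) ?_
  apply ENNReal.ofReal_le_ofReal
  apply Real.exp_le_exp.mpr
  exact ENNReal.toReal_mono hfin (BrLA_sum z L A)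

/-- half-space words in the strip -/
def HsU (L : ℕ) : Set Wd := {u | Saw u ∧ Ext L u ∧ (∀ a b, u = a ++ b → a ≠ [] → 0 < X a)}

lemma X_le_length (u : Wd) : |X u| ≤ u.length := by
  induction u with
  | nil => simp
  | cons a u ih =>
    simp only [X_cons, List.length_cons]
    have h1 : |vx a| ≤ 1 := by fin_cases a <;> simp [vx]
    have h2 := abs_add_le (vx a) (X u)
    push_cast
    omega

lemma HsU_fin (z : ℝ≥0∞) (L : ℕ) (hfin : Wt z (BrL L) ≠ ⊤) : Wt z (HsU L) ≠ ⊤ := by
  apply ne_top_of_le_ne_top (ENNReal.ofReal_ne_top (r := Real.exp (Wt z (BrL L)).toReal))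
  apply Wt_le_of_finite
  intro F hF
  -- all the words of `F` have length at most `A`
  set A := F.sup List.length with hA
  refine le_trans (sum_le_Wt F (S := Hs L A) ?_) (Hs_le z L hfin A)
  intro u hu
  obtain ⟨h1, h2, h3⟩ := hF u hu
  refine ⟨h1, h2, h3, ?_⟩
  intro a b hab
  have h4 := X_le_length a
  have h5 : u.length ≤ A := Finset.le_sup (f := List.length) hu
  have h6 : a.length ≤ u.length := by rw [hab]; simp
  have h7 := le_abs_self (X a)
  have h8 : (a.length : ℤ) ≤ A := by exact_mod_cast le_trans h6 h5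
  omega

/-- all self-avoiding words of extent less than `L` -/
def St (L : ℕ) : Set Wd := {u | Saw u ∧ Ext L u}

/-- The strip series converges at the critical point. -/
theorem St_fin {z : ℝ≥0∞} (hz0 : 0 < z) (hz : z ≤ crit) (L : ℕ) : Wt z (St L) ≠ ⊤ := by
  classical
  have hH := HsU_fin z L (brL_fin hz0 hz L)
  have hch : ∀ u : Wd, ∃ p : Wd × Wd, u = p.1 ++ p.2 ∧
      (∀ a b, u = a ++ b → X p.1 ≤ X a) ∧
      ∀ r s, p.2 = r ++ s → r ≠ [] → X (p.1 ++ r) ≠ X p.1 := by
    intro u
    -- the minimum over prefixes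
    obtain ⟨m, hm1, hm2⟩ : ∃ m : ℤ, (∃ a b, u = a ++ b ∧ X a = m) ∧
        ∀ a b, u = a ++ b → m ≤ X a := by
      have hfin : (Set.range (fun k : Fin (u.length + 1) => X (u.take k))).Finite :=
        Set.finite_range _
      obtain ⟨m, hm, hmin⟩ := Set.exists_min_image _ (fun x : ℤ => x) hfin
        ⟨_, ⟨0, rfl⟩⟩
      obtain ⟨k, hk⟩ := hm
      refine ⟨m, ⟨u.take k, u.drop k, by simp, hk⟩, ?_⟩
      intro a b hab
      apply hmin
      refine ⟨⟨a.length, ?_⟩, ?_⟩
      · have : u.length = a.length + b.length := by rw [hab]; simp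
        omega
      · simp only
        rw [hab]; simp
    obtain ⟨a, b, e1, e2, e3⟩ := exists_last_prefix u (fun a => X a = m) hm1
    refine ⟨(a, b), e1, ?_, ?_⟩
    · intro a' b' h
      show X a ≤ X a'
      rw [e2]; exact hm2 a' b' h
    · intro r s hrs hr
      show X (a ++ r) ≠ X a
      rw [e2]; exact e3 r s hrs hr
  choose f hf using hch
  -- the decomposition
  set St' : Set Wd := {w | ∃ u ∈ St L, w = 0 :: u} with hSt'
  have h1 : z * Wt z (St L) ≤ Wt z St' := by
    have : z = Wt z {([0] : Wd)} := by rw [Wt_singleton]; simp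
    calc z * Wt z (St L) = Wt z {([0] : Wd)} * Wt z (St L) := by rw [← this]
      _ ≤ Wt z St' := by
        apply Wt_mul_le
        · intro u hu v hv
          have : u = [0] := hu
          rw [this]
          exact ⟨v, hv, rfl⟩
        · intro u hu v hv u' hu' v' hv' h
          have h1 : u = [0] := hu
          have h2 : u' = [0] := hu'
          rw [h1, h2] at h
          simp at h
          exact ⟨by rw [h1, h2], h⟩
  have h2 : Wt z St' ≤ Wt z (HsU L) * Wt z (HsU L) := by
    apply Wt_le_mul (fun w => (0 :: ((f w.tail).1.reverse.map refl), (f w.tail).2))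
    · rintro w ⟨u, ⟨hS, hE⟩, rfl⟩
      simp only [List.tail_cons]
      obtain ⟨e1, e2, e3⟩ := hf u
      set a := (f u).1
      set b := (f u).2
      have hSa := hS.left e1
      have hSb := hS.right e1
      have hEa := hE.left e1
      have hEb := hE.right e1
      have hpre : ∀ p q, a.reverse.map refl = p ++ q → 0 ≤ X p := by
        intro p q hpq
        have e4 : a = (q.map refl).reverse ++ (p.map refl).reverse := by
          have : a.reverse = p.map refl ++ q.map refl := by
            rw [← refl_refl a.reverse, hpq]; simp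
          rw [← List.reverse_reverse a, this]; simp
        have h5 := e2 (q.map refl).reverse ((p.map refl).reverse ++ b) (by rw [e1, e4]; simp)
        have h6 : X a = - X q + - X p := by rw [e4]; simp
        rw [X_reverse, X_refl] at h5
        omega
      refine ⟨⟨?_, ?_, ?_⟩, ⟨hSb, hEb, ?_⟩, ?_⟩
      · -- self-avoiding
        intro p m q h hm
        rcases List.cons_eq_append_iff.mp (by rw [List.append_assoc] at h; exact h) with
          ⟨h3, h4⟩ | ⟨p', h3, h4⟩
        · -- factor starting at the beginning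
          rcases List.append_eq_cons_iff.mp h4 with ⟨h5, _⟩ | ⟨m', h5, h6⟩
          · exact absurd h5 hm
          · have h7 := hpre m' q h6
            rintro ⟨hx, _⟩
            rw [h5, X_cons] at hx
            simp [vx] at hx
            omega
        · have h5 : a.reverse.map refl = p' ++ m ++ q := by
            rw [List.append_assoc]; exact h4
          exact (hSa.rev'.refl') p' m q h5 hm
      · intro p m q h
        rcases List.cons_eq_append_iff.mp (by rw [List.append_assoc] at h; exact h) with
          ⟨h3, h4⟩ | ⟨p', h3, h4⟩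
        · rcases List.append_eq_cons_iff.mp h4 with ⟨h5, _⟩ | ⟨m', h5, h6⟩
          · rw [h5]
            simp only [Y_nil, abs_zero]
            have := hE [] [] u (by simp)
            simpa using this
          · rw [h5, Y_cons]
            have := (hEa.rev'.refl') [] m' q (by simpa using h6)
            simpa [vy] using this
        · have h5 : a.reverse.map refl = p' ++ m ++ q := by
            rw [List.append_assoc]; exact h4
          exact (hEa.rev'.refl') p' m q h5
      · intro p q h hp
        rcases List.append_eq_cons_iff.mp h.symm with ⟨h5, _⟩ | ⟨p', h5, h6⟩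
        · exact absurd h5 hp
        · have h7 := hpre p' q h6
          rw [h5, X_cons]
          simp [vx]
          omega
      · intro p q hpq hp
        have h5 := e3 p q hpq hp
        have h6 := e2 (a ++ p) q (by rw [e1, hpq]; simp)
        rw [X_append] at h5 h6
        omega
      · conv_lhs => rw [e1]
        simp
        ring
    · rintro w ⟨u, hu, rfl⟩ w' ⟨u', hu', rfl⟩ he
      simp only [List.tail_cons, Prod.mk.injEq, List.cons.injEq, true_and] at he
      obtain ⟨h3, h4⟩ := he
      have h5 : (f u).1.reverse = (f u').1.reverse := by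
        rw [← refl_refl (f u).1.reverse, h3, refl_refl]
      have h6 : (f u).1 = (f u').1 := List.reverse_injective h5
      have e1 := (hf u).1
      have e1' := (hf u').1
      rw [e1, e1', h6, h4]
  have h3 : z * Wt z (St L) ≠ ⊤ :=
    ne_top_of_le_ne_top (ENNReal.mul_ne_top hH hH) (le_trans h1 h2)
  intro htop
  rw [htop, ENNReal.mul_top hz0.ne'] at h3
  exact h3 rfl

end Pool.Agent.SawTree
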