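import Pool.Agent.SawTree.Flow

open scoped ENNReal
open Filter Topology

namespace Pool.Agent.SawTree

/-- all words of length `l` -/
def wordsF (l : ℕ) : Finset Wd := (Finset.univ : Finset (Fin l → Fin 4)).image List.ofFn

lemma mem_wordsF {l : ℕ} {u : Wd} : u ∈ wordsF l ↔ u.length = l := by
  unfold wordsF
  rw [Finset.mem_image]
  constructor
  · rintro ⟨f, _, rfl⟩; simp
  · intro h
    subst h
    exact ⟨fun i => u.get i, Finset.mem_univ _, by simp⟩

open Classical in
/-- bridges of length `n` -/
noncomputable def SF (n : ℕ) : Finset Wd := (wordsF n).filter Br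

lemma mem_SF {n : ℕ} {u : Wd} : u ∈ SF n ↔ u.length = n ∧ Br u := by
  classical
  unfold SF
  simp only [Finset.mem_filter, mem_wordsF]

/-- Beyond the critical point some level has supercritical weight. -/
lemma exists_super {b : ℝ} (hb : 0 < b) (hbc : crit < ENNReal.ofReal b) :
    ∃ n, 1 ≤ n ∧ 1 < ((SF n).card : ℝ) * b ^ n := by
  classical
  by_contra hcon
  push Not at hcon
  -- an intermediate point
  obtain ⟨y, hy1, hy2⟩ := exists_between hbc
  have hyt : y ≠ ⊤ := ne_top_of_lt hy2
  set b' := y.toReal with hb'
  have hyb : y = ENNReal.ofReal b' := (ENNReal.ofReal_toReal hyt).symm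
  have hb'0 : 0 < b' := by
    have : 0 < y := lt_of_le_of_lt zero_le hy1
    exact ENNReal.toReal_pos this.ne' hyt
  have hb'b : b' < b := by
    rw [hyb] at hy2
    exact (ENNReal.ofReal_lt_ofReal_iff hb).mp hy2
  have hinf := inf_of_crit_lt hy1
  -- but the series converges
  have hfin : Wt y {u | Br u} ≤ ENNReal.ofReal (1 / (1 - b' / b)) := by
    apply Wt_le_of_finite
    intro F hF
    have hr0 : 0 ≤ b' / b := by positivity
    have hr1 : b' / b < 1 := by rw [div_lt_one hb]; exact hb'b
    set A := F.sup List.length with hA
    have e1 : ∑ u ∈ F, y ^ u.length = ENNReal.ofReal (∑ u ∈ F, b' ^ u.length) := by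
      rw [ENNReal.ofReal_sum_of_nonneg (fun v _ => by positivity)]
      apply Finset.sum_congr rfl
      intro v _
      rw [hyb, ENNReal.ofReal_pow hb'0.le]
    rw [e1]
    apply ENNReal.ofReal_le_ofReal
    calc ∑ u ∈ F, b' ^ u.length ≤ ∑ n ∈ Finset.range (A + 1), ∑ u ∈ SF n, b' ^ u.length := by
          rw [← Finset.sum_biUnion]
          · apply Finset.sum_le_sum_of_subset_of_nonneg
            · intro u hu
              rw [Finset.mem_biUnion]
              refine ⟨u.length, ?_, mem_SF.mpr ⟨rfl, hF u hu⟩⟩
              rw [Finset.mem_range]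
              have : u.length ≤ A := Finset.le_sup (f := List.length) hu
              omega
            · intro u _ _; positivity
          · intro i _ j _ hij
            rw [Function.onFun, Finset.disjoint_left]
            intro u h1 h2
            exact hij ((mem_SF.mp h1).1.symm.trans (mem_SF.mp h2).1)
      _ ≤ ∑ n ∈ Finset.range (A + 1), (b' / b) ^ n := by
          apply Finset.sum_le_sum
          intro n _
          have e2 : ∑ u ∈ SF n, b' ^ u.length = ((SF n).card : ℝ) * b' ^ n := by
            rw [Finset.sum_congr rfl (g := fun _ => b' ^ n)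
              (fun u hu => by rw [(mem_SF.mp hu).1])]
            simp
          rw [e2]
          rcases Nat.eq_zero_or_pos n with h | h
          · subst h
            have : (SF 0).card ≤ 1 := by
              apply Finset.card_le_one.mpr
              intro a ha c hc
              have h1 := (mem_SF.mp ha).1
              have h2 := (mem_SF.mp hc).1
              rw [List.length_eq_zero_iff.mp h1, List.length_eq_zero_iff.mp h2]
            simp
            exact_mod_cast this
          · have h3 := hcon n h
            rw [div_pow, le_div_iff₀ (by positivity)]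
            calc ((SF n).card : ℝ) * b' ^ n * b ^ n = (((SF n).card : ℝ) * b ^ n) * b' ^ n := by
                  ring
              _ ≤ 1 * b' ^ n := mul_le_mul_of_nonneg_right h3 (by positivity)
              _ = b' ^ n := one_mul _
      _ ≤ 1 / (1 - b' / b) := by
          have h : (∑ j ∈ Finset.range (A + 1), (b' / b) ^ j) * (1 - b' / b)
              = 1 - (b' / b) ^ (A + 1) := by
            have := geom_sum_mul_neg (b' / b) (A + 1)
            linarith
          rw [le_div_iff₀ (by linarith), h]
          have : 0 ≤ (b' / b) ^ (A + 1) := by positivity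
          linarith
  rw [hinf] at hfin
  exact absurd hfin (by simp)

section flow

variable {n : ℕ} (hn : 1 ≤ n)

open Classical in
/-- the flow obtained by concatenating uniform bridges of length `n` -/
noncomputable def phi (n : ℕ) (hn : 1 ≤ n) (v : Wd) : ℝ :=
  if h : v.length ≤ n then (((SF n).filter (fun u => v <+: u)).card : ℝ) / (SF n).card
  else if v.take n ∈ SF n then phi n hn (v.drop n) / (SF n).card else 0
termination_by v.length
decreasing_by
  simp only [List.length_drop]
  omega

lemma phi_short {v : Wd} (h : v.length ≤ n) :
    phi n hn v = (((SF n).filter (fun u => v <+: u)).card : ℝ) / (SF n).card := by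
  classical
  rw [phi, dif_pos h]

lemma phi_long {v : Wd} (h : ¬ v.length ≤ n) :
    phi n hn v = if v.take n ∈ SF n then phi n hn (v.drop n) / (SF n).card else 0 := by
  classical
  rw [phi, dif_neg h]

lemma phi_nonneg : ∀ (k : ℕ) (v : Wd), v.length ≤ k → 0 ≤ phi n hn v := by
  intro k
  induction k with
  | zero =>
    intro v hv
    rw [phi_short hn (by omega)]; positivity
  | succ k ih =>
    intro v hv
    by_cases h : v.length ≤ n
    · rw [phi_short hn h]; positivity
    · rw [phi_long hn h]
      split_ifs
      · apply div_nonneg _ (by positivity)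
        apply ih
        rw [List.length_drop]; omega
      · exact le_refl _

lemma phi_support : ∀ (k : ℕ) (v : Wd), v.length ≤ k → phi n hn v ≠ 0 → Saw v ∧ PreNN v := by
  intro k
  induction k with
  | zero =>
    intro v hv _
    have : v = [] := List.length_eq_zero_iff.mp (by omega)
    subst this
    exact ⟨br_nil.1, br_nil.2.1⟩
  | succ k ih =>
    intro v hv hne
    by_cases h : v.length ≤ n
    · rw [phi_short hn h] at hne
      have h1 : ((SF n).filter (fun u => v <+: u)).card ≠ 0 := by
        intro h0; rw [h0] at hne; simp at hne
      obtain ⟨u, hu⟩ := Finset.card_ne_zero.mp h1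
      rw [Finset.mem_filter, mem_SF] at hu
      obtain ⟨⟨_, hB⟩, w, hw⟩ := hu
      refine ⟨hB.1.left hw.symm, ?_⟩
      intro a b hab
      exact hB.2.1 a (b ++ w) (by rw [← hw, hab]; simp)
    · rw [phi_long hn h] at hne
      by_cases hS : v.take n ∈ SF n
      · rw [if_pos hS] at hne
        have h2 : phi n hn (v.drop n) ≠ 0 := by
          intro h0; rw [h0] at hne; simp at hne
        obtain ⟨h3, h4⟩ := ih (v.drop n) (by rw [List.length_drop]; omega) h2
        rw [mem_SF] at hS
        rw [← List.take_append_drop n v]
        exact ⟨saw_append hS.2.1 h3 hS.2.2.2 h4, hS.2.2.1.append h4⟩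
      · rw [if_neg hS] at hne
        exact absurd rfl hne

lemma phi_nil (hS : 0 < (SF n).card) : phi n hn [] = 1 := by
  rw [phi_short hn (by simp)]
  simp only [List.nil_prefix, Finset.filter_true]
  rw [div_self]
  exact_mod_cast hS.ne'

lemma prefix_split {v u : Wd} (h : v.length < u.length) :
    v <+: u ↔ ∃ d : Fin 4, v ++ [d] <+: u := by
  constructor
  · rintro ⟨w, rfl⟩
    cases w with
    | nil => simp at h
    | cons d w => exact ⟨d, w, by simp⟩
  · rintro ⟨d, w, hw⟩
    exact ⟨d :: w, by rw [← hw]; simp⟩

lemma phi_flow_short {v : Wd} (h : v.length < n) :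
    phi n hn v = ∑ d : Fin 4, phi n hn (v ++ [d]) := by
  classical
  rw [phi_short hn h.le]
  have h1 : ∀ d : Fin 4, phi n hn (v ++ [d])
      = (((SF n).filter (fun u => v ++ [d] <+: u)).card : ℝ) / (SF n).card := by
    intro d
    apply phi_short hn
    simp; omega
  simp_rw [h1]
  rw [← Finset.sum_div]
  congr 1
  rw [← Nat.cast_sum, ← Finset.card_biUnion]
  · congr 2
    ext u
    simp only [Finset.mem_filter, Finset.mem_biUnion, Finset.mem_univ, true_and]
    constructor
    · rintro ⟨h2, h3⟩
      rw [prefix_split (by rw [(mem_SF.mp h2).1]; exact h)] at h3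
      obtain ⟨d, hd⟩ := h3
      exact ⟨d, h2, hd⟩
    · rintro ⟨d, h2, h3⟩
      refine ⟨h2, ?_⟩
      rw [prefix_split (by rw [(mem_SF.mp h2).1]; exact h)]
      exact ⟨d, h3⟩
  · intro d _ d' _ hne
    rw [Function.onFun, Finset.disjoint_left]
    intro u hu hu'
    rw [Finset.mem_filter] at hu hu'
    obtain ⟨w, hw⟩ := hu.2
    obtain ⟨w', hw'⟩ := hu'.2
    rw [← hw', List.append_assoc, List.append_assoc] at hw
    have := List.append_cancel_left hw
    simp at this
    exact hne this.1

lemma phi_flow (hS : 0 < (SF n).card) : ∀ (k : ℕ) (v : Wd), v.length ≤ k →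
    phi n hn v = ∑ d : Fin 4, phi n hn (v ++ [d]) := by
  intro k
  induction k with
  | zero =>
    intro v hv
    apply phi_flow_short
    omega
  | succ k ih =>
    intro v hv
    by_cases h : v.length < n
    · exact phi_flow_short hn h
    · have h1 : ∀ d : Fin 4, phi n hn (v ++ [d])
          = if v.take n ∈ SF n then phi n hn (v.drop n ++ [d]) / (SF n).card else 0 := by
        intro d
        rw [phi_long hn (by simp; omega)]
        rw [List.take_append_of_le_length (by omega), List.drop_append_of_le_length (by omega)]
      simp_rw [h1]
      by_cases hT : v.take n ∈ SF n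
      · simp only [hT, if_true]
        rw [← Finset.sum_div, ← ih (v.drop n) (by rw [List.length_drop]; omega)]
        by_cases h2 : v.length ≤ n
        · have h3 : v.length = n := by omega
          have h4 : v.take n = v := List.take_of_length_le (by omega)
          have h5 : v.drop n = [] := List.drop_of_length_le (by omega)
          rw [h4] at hT
          rw [h5, phi_nil hn hS, phi_short hn h2]
          congr 1
          have : (SF n).filter (fun u => v <+: u) = {v} := by
            ext u
            simp only [Finset.mem_filter, Finset.mem_singleton]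
            constructor
            · rintro ⟨h6, h7⟩
              exact (h7.eq_of_length (by rw [h3, (mem_SF.mp h6).1])).symm
            · rintro rfl
              exact ⟨hT, List.prefix_refl _⟩
          rw [this]; simp
        · rw [phi_long hn h2, if_pos hT]
      · simp only [hT, if_false, Finset.sum_const_zero]
        by_cases h2 : v.length ≤ n
        · have h3 : v.length = n := by omega
          have h4 : v.take n = v := List.take_of_length_le (by omega)
          rw [h4] at hT
          rw [phi_short hn h2]
          have : (SF n).filter (fun u => v <+: u) = ∅ := by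
            ext u
            simp only [Finset.mem_filter, Finset.notMem_empty, iff_false]
            rintro ⟨h6, h7⟩
            have := (h7.eq_of_length (by rw [h3, (mem_SF.mp h6).1]))
            rw [this] at hT
            exact hT h6
          rw [this]; simp
        · rw [phi_long hn h2, if_neg hT]

lemma phi_level (hS : 0 < (SF n).card) (l : ℕ) : ∑ v ∈ wordsF l, phi n hn v = 1 := by
  classical
  induction l with
  | zero =>
    have : wordsF 0 = {[]} := by
      ext u; rw [mem_wordsF, Finset.mem_singleton, List.length_eq_zero_iff]
    rw [this, Finset.sum_singleton, phi_nil hn hS]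
  | succ l ih =>
    have h1 : wordsF (l + 1) = ((wordsF l) ×ˢ (Finset.univ : Finset (Fin 4))).image
        (fun p => p.1 ++ [p.2]) := by
      ext u
      rw [mem_wordsF, Finset.mem_image]
      constructor
      · intro h
        have hne : u ≠ [] := by intro h0; rw [h0] at h; simp at h
        refine ⟨(u.dropLast, u.getLast hne), ?_, List.dropLast_append_getLast hne⟩
        rw [Finset.mem_product]
        refine ⟨mem_wordsF.mpr ?_, Finset.mem_univ _⟩
        rw [List.length_dropLast]; omega
      · rintro ⟨⟨v, d⟩, hp, rfl⟩
        rw [Finset.mem_product, mem_wordsF] at hp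
        simp only at hp
        simp [hp.1]
    rw [h1, Finset.sum_image, Finset.sum_product]
    · rw [← ih]
      apply Finset.sum_congr rfl
      intro v _
      exact (phi_flow hn hS v.length v (le_refl _)).symm
    · rintro ⟨v, d⟩ _ ⟨v', d'⟩ _ h
      simp only at h
      have h2 := List.append_inj' h rfl
      simp at h2
      exact Prod.ext h2.1 h2.2

lemma phi_le (hS : 0 < (SF n).card) : ∀ (k : ℕ) (v : Wd), v.length ≤ k →
    phi n hn v ≤ (1 / ((SF n).card : ℝ)) ^ (v.length / n) := by
  have hS' : (0 : ℝ) < (SF n).card := by exact_mod_cast hS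
  have hS1 : (1 : ℝ) ≤ (SF n).card := by exact_mod_cast hS
  intro k
  induction k with
  | zero =>
    intro v hv
    have : v = [] := List.length_eq_zero_iff.mp (by omega)
    subst this
    rw [phi_nil hn hS]
    simp
  | succ k ih =>
    intro v hv
    by_cases h : v.length < n
    · rw [phi_short hn h.le, Nat.div_eq_of_lt h, pow_zero, div_le_one hS']
      exact_mod_cast Finset.card_filter_le _ _
    · by_cases h2 : v.length ≤ n
      · have h3 : v.length = n := by omega
        rw [phi_short hn h2, h3, Nat.div_self (by omega), pow_one]
        apply div_le_div_of_nonneg_right _ hS'.le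
        have : ((SF n).filter (fun u => v <+: u)).card ≤ 1 := by
          apply Finset.card_le_one.mpr
          intro a ha c hc
          rw [Finset.mem_filter] at ha hc
          have e1 := (ha.2.eq_of_length (by rw [h3, (mem_SF.mp ha.1).1]))
          have e2 := (hc.2.eq_of_length (by rw [h3, (mem_SF.mp hc.1).1]))
          rw [← e1, ← e2]
        exact_mod_cast this
      · rw [phi_long hn h2]
        have hdiv : v.length / n = (v.drop n).length / n + 1 := by
          rw [List.length_drop]
          have : v.length = (v.length - n) + n := by omega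
          conv_lhs => rw [this]
          rw [Nat.add_div_right _ (by omega)]
        rw [hdiv, pow_succ]
        split_ifs
        · have := ih (v.drop n) (by rw [List.length_drop]; omega)
          rw [div_eq_mul_one_div]
          exact mul_le_mul_of_nonneg_right this (by positivity)
        · positivity

end flow

/-- **Transience beyond the critical point.** -/
theorem exists_flow {b : ℝ} (hb : 0 < b) (hbc : crit < ENNReal.ofReal b) :
    ∃ θ : Wd → ℝ, (∀ u, ¬ TH u → θ u = 0) ∧ θ [] = 1 ∧
      (∀ u, TH u → θ u = ∑ d : Fin 4, θ (u ++ [d])) ∧
      Summable (fun u : Wd => θ u ^ 2 / b ^ (u.length + 1)) := by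
  classical
  obtain ⟨n, hn, hsup⟩ := exists_super hb hbc
  have hScard : 0 < (SF n).card := by
    by_contra hcon
    have : (SF n).card = 0 := by omega
    rw [this] at hsup
    simp at hsup
    linarith
  have hS0 : (0 : ℝ) < (SF n).card := by exact_mod_cast hScard
  refine ⟨fun u => phi n hn (u.map swp), ?_, ?_, ?_, ?_⟩
  · intro u hu
    by_contra hne
    obtain ⟨h1, h2⟩ := phi_support hn _ _ (le_refl _) hne
    apply hu
    refine ⟨?_, ?_⟩
    · have := h1.swp'
      rwa [swp_swp] at this
    · intro a b hab
      have := h2 (a.map swp) (b.map swp) (by rw [hab]; simp)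
      rwa [X_swp] at this
  · exact phi_nil hn hScard
  · intro u _
    show phi n hn (u.map swp) = ∑ d : Fin 4, phi n hn ((u ++ [d]).map swp)
    rw [phi_flow hn hScard _ _ (le_refl _)]
    have : ∀ d : Fin 4, phi n hn ((u ++ [d]).map swp) = phi n hn (u.map swp ++ [swp d]) := by
      intro d; simp
    simp_rw [this]
    have hinv : Function.Involutive swp := by
      intro d; fin_cases d <;> rfl
    exact (Equiv.sum_comp (hinv.toPerm swp) (fun d => phi n hn (u.map swp ++ [d]))).symm
  · -- energy
    set ρ : ℝ := 1 / (((SF n).card : ℝ) * b ^ n) with hρ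
    have hρ0 : 0 < ρ := by positivity
    have hρ1 : ρ < 1 := by
      rw [hρ, div_lt_one (by positivity)]; exact hsup
    set Mx : ℝ := ∑ r ∈ Finset.range n, (1 / b) ^ (r + 1) with hMx
    have hMx0 : 0 ≤ Mx := by rw [hMx]; positivity
    -- bound for a level
    have hlev : ∀ l : ℕ, ∑ v ∈ wordsF l, phi n hn v ^ 2 / b ^ (v.length + 1)
        ≤ ρ ^ (l / n) * (1 / b) ^ (l % n + 1) := by
      intro l
      have e1 : ∀ v ∈ wordsF l, phi n hn v ^ 2 / b ^ (v.length + 1)
          ≤ phi n hn v * ((1 / ((SF n).card : ℝ)) ^ (l / n) * (1 / b) ^ (l + 1)) := by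
        intro v hv
        rw [mem_wordsF] at hv
        have h1 := phi_le hn hScard _ v (le_refl _)
        have h0 := phi_nonneg hn _ v (le_refl _)
        rw [hv] at h1 ⊢
        rw [sq, div_eq_mul_one_div, mul_assoc]
        apply mul_le_mul_of_nonneg_left _ h0
        rw [← one_div_pow]
        exact mul_le_mul_of_nonneg_right h1 (by positivity)
      refine le_trans (Finset.sum_le_sum e1) ?_
      rw [← Finset.sum_mul, phi_level hn hScard l, one_mul]
      apply le_of_eq
      have hl : l = n * (l / n) + l % n := (Nat.div_add_mod l n).symm
      have e2 : (1 / b : ℝ) ^ (l + 1) = ((1 / b) ^ n) ^ (l / n) * (1 / b) ^ (l % n + 1) := by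
        rw [← pow_mul, ← pow_add]
        congr 1
        omega
      rw [e2, hρ, ← mul_assoc, ← mul_pow]
      congr 2
      rw [one_div_pow, one_div_mul_one_div]
    -- partial sums
    have hsumlev : ∀ K : ℕ, ∑ l ∈ Finset.range (n * K), ρ ^ (l / n) * (1 / b) ^ (l % n + 1)
        ≤ Mx * (1 / (1 - ρ)) := by
      intro K
      have e1 : ∑ l ∈ Finset.range (n * K), ρ ^ (l / n) * (1 / b) ^ (l % n + 1)
          = ∑ k ∈ Finset.range K, ρ ^ k * Mx := by
        induction K with
        | zero => simp
        | succ K ih =>
          rw [Finset.sum_range_succ, ← ih, Nat.mul_succ, Finset.sum_range_add]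
          congr 1
          rw [hMx, Finset.mul_sum]
          apply Finset.sum_congr rfl
          intro r hr
          rw [Finset.mem_range] at hr
          rw [Nat.mul_add_div (by omega), Nat.div_eq_of_lt hr, add_zero, Nat.mul_add_mod,
            Nat.mod_eq_of_lt hr]
      rw [e1, ← Finset.sum_mul, mul_comm]
      apply mul_le_mul_of_nonneg_left _ hMx0
      have h : (∑ j ∈ Finset.range K, ρ ^ j) * (1 - ρ) = 1 - ρ ^ K := by
        have := geom_sum_mul_neg ρ K
        linarith
      rw [le_div_iff₀ (by linarith), h]
      have : 0 ≤ ρ ^ K := by positivity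
      linarith
    apply summable_of_sum_le (c := Mx * (1 / (1 - ρ)))
    · intro v; positivity
    · intro F
      set G : Finset Wd := F.image (fun u => u.map swp) with hG
      have e0 : ∑ u ∈ F, phi n hn (u.map swp) ^ 2 / b ^ (u.length + 1)
          = ∑ v ∈ G, phi n hn v ^ 2 / b ^ (v.length + 1) := by
        rw [hG, Finset.sum_image]
        · apply Finset.sum_congr rfl
          intro u _
          simp
        · intro u _ u' _ h
          have h' : u.map swp = u'.map swp := h
          rw [← swp_swp u, h', swp_swp]
      rw [e0]
      set A := G.sup List.length with hA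
      calc ∑ v ∈ G, phi n hn v ^ 2 / b ^ (v.length + 1)
          ≤ ∑ l ∈ Finset.range (n * (A + 1)), ∑ v ∈ wordsF l,
            phi n hn v ^ 2 / b ^ (v.length + 1) := by
            rw [← Finset.sum_biUnion]
            · apply Finset.sum_le_sum_of_subset_of_nonneg
              · intro u hu
                rw [Finset.mem_biUnion]
                refine ⟨u.length, ?_, mem_wordsF.mpr rfl⟩
                rw [Finset.mem_range]
                have h1 : u.length ≤ A := Finset.le_sup (f := List.length) hu
                calc u.length < A + 1 := by omega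
                  _ = 1 * (A + 1) := by ring
                  _ ≤ n * (A + 1) := Nat.mul_le_mul_right _ hn
              · intro u _ _; positivity
            · intro i _ j _ hij
              rw [Function.onFun, Finset.disjoint_left]
              intro u h1 h2
              exact hij ((mem_wordsF.mp h1).symm.trans (mem_wordsF.mp h2))
        _ ≤ ∑ l ∈ Finset.range (n * (A + 1)), ρ ^ (l / n) * (1 / b) ^ (l % n + 1) :=
            Finset.sum_le_sum (fun l _ => hlev l)
        _ ≤ _ := hsumlev _

lemma crit_ne_top : crit ≠ ⊤ := by
  intro h
  have h2 : (1 : ℝ≥0∞) < crit := by rw [h]; exact ENNReal.one_lt_top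
  have h3 := fin_of_lt_crit h2
  apply h3
  -- horizontal words are bridges
  have hB : ∀ n : ℕ, Br (List.replicate n 0) := by
    intro n
    have hX : ∀ k : ℕ, X (List.replicate k 0) = k := by
      intro k; simp [X, vx]
    have hsub : ∀ a b c : Wd, List.replicate n 0 = a ++ b ++ c →
        b = List.replicate b.length 0 := by
      intro a b c h
      apply List.eq_replicate_iff.mpr
      refine ⟨rfl, fun d hd => ?_⟩
      have : d ∈ List.replicate n (0 : Fin 4) := by rw [h]; simp [hd]
      exact (List.mem_replicate.mp this).2
    refine ⟨?_, ?_, ?_⟩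
    · intro a b c h hb
      rintro ⟨hx, _⟩
      rw [hsub a b c h, hX] at hx
      have : b.length = 0 := by exact_mod_cast hx
      exact hb (List.length_eq_zero_iff.mp this)
    · intro a b h
      rw [hsub [] a b (by simpa using h), hX]
      positivity
    · intro a b h hb
      rw [hsub a b [] (by simpa using h), hX]
      have : 0 < b.length := List.length_pos_iff.mpr hb
      exact_mod_cast this
  rw [eq_top_iff]
  by_contra hcon
  push Not at hcon
  obtain ⟨N, hN⟩ := ENNReal.exists_nat_gt hcon.ne
  have h4 : (N : ℝ≥0∞) ≤ Wt 1 {u | Br u} := by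
    have := sum_le_Wt (z := 1) (S := {u | Br u})
      ((Finset.range N).image (fun n => List.replicate n (0 : Fin 4))) (by
        intro u hu
        rw [Finset.mem_image] at hu
        obtain ⟨n, _, rfl⟩ := hu
        exact hB n)
    rw [Finset.sum_image (by
      intro a _ b _ hab
      have := congrArg List.length hab
      simpa using this)] at this
    simpa using this
  exact absurd h4 (not_le_of_gt hN)

end Pool.Agent.SawTree
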