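import Pool.Agent.SawTree.Words

open scoped ENNReal

namespace Pool.Agent.SawTree

/-- total weight of a set of words -/
noncomputable def Wt (z : ℝ≥0∞) (S : Set Wd) : ℝ≥0∞ := ∑' u : S, z ^ (u : Wd).length

lemma Wt_inj {z : ℝ≥0∞} {S T : Set Wd} (f : S → T) (hf : Function.Injective f)
    (hl : ∀ u, (f u : Wd).length = (u : Wd).length) : Wt z S ≤ Wt z T := by
  unfold Wt
  calc ∑' u : S, z ^ (u : Wd).length = ∑' u : S, z ^ (f u : Wd).length := by
        congr 1; funext u; rw [hl]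
    _ ≤ ∑' v : T, z ^ (v : Wd).length :=
        ENNReal.tsum_comp_le_tsum_of_injective hf (fun v : T => z ^ (v : Wd).length)

lemma Wt_mono {z : ℝ≥0∞} {S T : Set Wd} (h : S ⊆ T) : Wt z S ≤ Wt z T :=
  Wt_inj (fun u => ⟨u, h u.2⟩) (fun a b hab => by
    have := congrArg (fun t : T => (t : Wd)) hab
    exact Subtype.ext this) (fun _ => rfl)

lemma Wt_prod (z : ℝ≥0∞) (S T : Set Wd) :
    Wt z S * Wt z T = ∑' p : S × T, z ^ ((p.1 : Wd).length + (p.2 : Wd).length) := by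
  unfold Wt
  have h := ENNReal.tsum_prod (f := fun (u : S) (v : T) => z ^ ((u : Wd).length + (v : Wd).length))
  rw [h, ← ENNReal.tsum_mul_right]
  congr 1
  funext u
  rw [← ENNReal.tsum_mul_left]
  congr 1
  funext v
  rw [pow_add]

lemma Wt_mul_le {z : ℝ≥0∞} {S T R : Set Wd} (hR : ∀ u ∈ S, ∀ v ∈ T, u ++ v ∈ R)
    (hinj : ∀ u ∈ S, ∀ v ∈ T, ∀ u' ∈ S, ∀ v' ∈ T, u ++ v = u' ++ v' → u = u' ∧ v = v') :
    Wt z S * Wt z T ≤ Wt z R := by
  rw [Wt_prod]
  unfold Wt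
  let f : S × T → R := fun p => ⟨(p.1 : Wd) ++ (p.2 : Wd), hR _ p.1.2 _ p.2.2⟩
  have hf : Function.Injective f := by
    rintro ⟨u, v⟩ ⟨u', v'⟩ h
    have h1 : (u : Wd) ++ (v : Wd) = (u' : Wd) ++ (v' : Wd) := congrArg (fun t : R => (t : Wd)) h
    obtain ⟨h2, h3⟩ := hinj _ u.2 _ v.2 _ u'.2 _ v'.2 h1
    exact Prod.ext (Subtype.ext h2) (Subtype.ext h3)
  calc ∑' p : S × T, z ^ ((p.1 : Wd).length + (p.2 : Wd).length)
      = ∑' p : S × T, z ^ (f p : Wd).length := by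
        congr 1; funext p; simp [f]
    _ ≤ _ := ENNReal.tsum_comp_le_tsum_of_injective hf (fun v : R => z ^ (v : Wd).length)

/-- general decomposition bound -/
lemma Wt_le_mul {z : ℝ≥0∞} {S T R : Set Wd} (f : Wd → Wd × Wd)
    (hf : ∀ w ∈ R, (f w).1 ∈ S ∧ (f w).2 ∈ T ∧ w.length = (f w).1.length + (f w).2.length)
    (hinj : ∀ w ∈ R, ∀ w' ∈ R, f w = f w' → w = w') : Wt z R ≤ Wt z S * Wt z T := by
  rw [Wt_prod]
  unfold Wt
  let g : R → S × T := fun w => (⟨(f w).1, (hf w w.2).1⟩, ⟨(f w).2, (hf w w.2).2.1⟩)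
  have hg : Function.Injective g := by
    intro w w' h
    apply Subtype.ext
    apply hinj w w.2 w' w'.2
    have h1 := congrArg (fun p : S × T => ((p.1 : Wd), (p.2 : Wd))) h
    simpa [g] using h1
  calc ∑' w : R, z ^ (w : Wd).length
      = ∑' w : R, z ^ (((g w).1 : Wd).length + ((g w).2 : Wd).length) := by
        congr 1; funext w; rw [(hf w w.2).2.2]
    _ ≤ _ := ENNReal.tsum_comp_le_tsum_of_injective hg
        (fun p : S × T => z ^ ((p.1 : Wd).length + (p.2 : Wd).length))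

/-- decomposition by concatenation -/
lemma Wt_le_append {z : ℝ≥0∞} {S T R : Set Wd} (h : ∀ w ∈ R, ∃ u ∈ S, ∃ v ∈ T, w = u ++ v) :
    Wt z R ≤ Wt z S * Wt z T := by
  classical
  have hch : ∀ w : Wd, ∃ p : Wd × Wd, w ∈ R → p.1 ∈ S ∧ p.2 ∈ T ∧ w = p.1 ++ p.2 := by
    intro w
    by_cases hw : w ∈ R
    · obtain ⟨u, hu, v, hv, e⟩ := h w hw
      exact ⟨(u, v), fun _ => ⟨hu, hv, e⟩⟩
    · exact ⟨([], []), fun h => absurd h hw⟩
  choose f hf using hch
  apply Wt_le_mul f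
  · intro w hw
    obtain ⟨h1, h2, h3⟩ := hf w hw
    refine ⟨h1, h2, ?_⟩
    conv_lhs => rw [h3]
    simp
  · intro w hw w' hw' he
    rw [(hf w hw).2.2, (hf w' hw').2.2, he]

lemma Wt_union_le {z : ℝ≥0∞} (S T : Set Wd) : Wt z (S ∪ T) ≤ Wt z S + Wt z T := by
  unfold Wt
  exact ENNReal.tsum_union_le (fun u : Wd => z ^ u.length) S T

lemma Wt_iUnion_le {z : ℝ≥0∞} (S : ℕ → Set Wd) : Wt z (⋃ k, S k) ≤ ∑' k, Wt z (S k) := by
  unfold Wt
  exact ENNReal.tsum_iUnion_le_tsum (fun u : Wd => z ^ u.length) S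

lemma Wt_singleton {z : ℝ≥0∞} (u : Wd) : Wt z {u} = z ^ u.length := by
  unfold Wt
  rw [tsum_eq_single ⟨u, rfl⟩]
  intro b hb
  exfalso
  apply hb
  exact Subtype.ext b.2

lemma Wt_disj {z : ℝ≥0∞} {S T R : Set Wd} (hd : Disjoint S T) (hS : S ⊆ R) (hT : T ⊆ R) :
    Wt z S + Wt z T ≤ Wt z R := by
  have h := (ENNReal.summable (f := fun u : S => z ^ (u : Wd).length)).tsum_union_disjoint hd
    (ENNReal.summable (f := fun u : T => z ^ (u : Wd).length)) (f := fun u : Wd => z ^ u.length)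
  have h2 : Wt z (S ∪ T) = Wt z S + Wt z T := h
  rw [← h2]
  exact Wt_mono (Set.union_subset hS hT)

/-- a bound valid on all finite parts is valid for the whole -/
lemma Wt_le_of_finite {z : ℝ≥0∞} {S : Set Wd} {c : ℝ≥0∞}
    (h : ∀ F : Finset Wd, (∀ u ∈ F, u ∈ S) → ∑ u ∈ F, z ^ u.length ≤ c) : Wt z S ≤ c := by
  unfold Wt
  rw [ENNReal.tsum_eq_iSup_sum]
  apply iSup_le
  intro F
  have := h (F.map (Function.Embedding.subtype (fun u => u ∈ S))) (by
    intro u hu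
    rw [Finset.mem_map] at hu
    obtain ⟨v, _, rfl⟩ := hu
    exact v.2)
  rwa [Finset.sum_map] at this

lemma sum_le_Wt {z : ℝ≥0∞} {S : Set Wd} (F : Finset Wd) (h : ∀ u ∈ F, u ∈ S) :
    ∑ u ∈ F, z ^ u.length ≤ Wt z S := by
  unfold Wt
  have : ∑ u ∈ F, z ^ u.length = ∑ u ∈ F.attach, z ^ (u : Wd).length :=
    (Finset.sum_attach F (fun u => z ^ u.length)).symm
  rw [this]
  have h2 := ENNReal.sum_le_tsum (f := fun v : S => z ^ (v : Wd).length)
    (F.attach.map ⟨fun u : {x // x ∈ F} => (⟨(u : Wd), h u.1 u.2⟩ : S), by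
      intro a b hab
      simp only [Subtype.mk.injEq] at hab
      exact Subtype.ext hab⟩)
  rw [Finset.sum_map] at h2
  exact h2

end Pool.Agent.SawTree
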