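import Mathlib

namespace Pool.Agent.SawTree

/-- words of unit steps; `0,1,2,3` are right, left, up, down -/
abbrev Wd := List (Fin 4)

def vx : Fin 4 → ℤ := ![1, -1, 0, 0]
def vy : Fin 4 → ℤ := ![0, 0, 1, -1]

def X (u : Wd) : ℤ := (u.map vx).sum
def Y (u : Wd) : ℤ := (u.map vy).sum

@[simp] lemma X_nil : X [] = 0 := rfl
@[simp] lemma Y_nil : Y [] = 0 := rfl
@[simp] lemma X_append (u v : Wd) : X (u ++ v) = X u + X v := by simp [X]
@[simp] lemma Y_append (u v : Wd) : Y (u ++ v) = Y u + Y v := by simp [Y]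
@[simp] lemma X_cons (a : Fin 4) (v : Wd) : X (a :: v) = vx a + X v := by simp [X]
@[simp] lemma Y_cons (a : Fin 4) (v : Wd) : Y (a :: v) = vy a + Y v := by simp [Y]
@[simp] lemma X_reverse (u : Wd) : X u.reverse = X u := by simp [X, List.sum_reverse]
@[simp] lemma Y_reverse (u : Wd) : Y u.reverse = Y u := by simp [Y, List.sum_reverse]

/-- self-avoiding words: no nonempty factor has zero displacement -/
def Saw (u : Wd) : Prop := ∀ a b c : Wd, u = a ++ b ++ c → b ≠ [] → ¬ (X b = 0 ∧ Y b = 0)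

/-- vertical extent less than `L` -/
def Ext (L : ℕ) (u : Wd) : Prop := ∀ a b c : Wd, u = a ++ b ++ c → |Y b| < L

/-- prefixes have nonnegative abscissa -/
def PreNN (u : Wd) : Prop := ∀ a b : Wd, u = a ++ b → 0 ≤ X a
/-- nonempty suffixes have positive abscissa -/
def SufPos (u : Wd) : Prop := ∀ a b : Wd, u = a ++ b → b ≠ [] → 0 < X b

/-- bridges (horizontal direction) -/
def Br (u : Wd) : Prop := Saw u ∧ PreNN u ∧ SufPos u

lemma Saw.factor {u a b c : Wd} (h : Saw u) (e : u = a ++ b ++ c) : Saw b := by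
  intro a' b' c' e' hb
  apply h (a ++ a') b' (c' ++ c) _ hb
  rw [e, e']; simp [List.append_assoc]

lemma Ext.factor {L : ℕ} {u a b c : Wd} (h : Ext L u) (e : u = a ++ b ++ c) : Ext L b := by
  intro a' b' c' e'
  apply h (a ++ a') b' (c' ++ c)
  rw [e, e']; simp [List.append_assoc]

lemma Saw.left {u a b : Wd} (h : Saw u) (e : u = a ++ b) : Saw a :=
  h.factor (a := []) (b := a) (c := b) (by simpa using e)
lemma Saw.right {u a b : Wd} (h : Saw u) (e : u = a ++ b) : Saw b :=
  h.factor (a := a) (b := b) (c := []) (by simpa using e)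
lemma Ext.left {L : ℕ} {u a b : Wd} (h : Ext L u) (e : u = a ++ b) : Ext L a :=
  h.factor (a := []) (b := a) (c := b) (by simpa using e)
lemma Ext.right {L : ℕ} {u a b : Wd} (h : Ext L u) (e : u = a ++ b) : Ext L b :=
  h.factor (a := a) (b := b) (c := []) (by simpa using e)

lemma saw_nil : Saw [] := by
  intro a b c h hb
  simp at h
  exact absurd h.2.1 hb

lemma br_nil : Br [] := by
  refine ⟨saw_nil, ?_, ?_⟩
  · intro a b h
    simp at h
    simp [h.1]
  · intro a b h hb
    simp at h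
    exact absurd h.2 hb

/-- factors of a concatenation -/
lemma infix_append {u v a b c : Wd} (h : u ++ v = a ++ b ++ c) :
    (∃ c', u = a ++ b ++ c') ∨ (∃ a', v = a' ++ b ++ c) ∨
      (∃ b1 b2, b = b1 ++ b2 ∧ u = a ++ b1 ∧ v = b2 ++ c ∧ b1 ≠ [] ∧ b2 ≠ []) := by
  rcases List.append_eq_append_iff.mp h with ⟨a', h1, h2⟩ | ⟨c', h1, h2⟩
  · -- a ++ b = u ++ a', v = a' ++ c
    rcases List.append_eq_append_iff.mp h1 with ⟨a'', h3, h4⟩ | ⟨c'', h3, h4⟩
    · -- u = a ++ a'', b = a'' ++ a'
      by_cases hb1 : a'' = []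
      · right; left
        refine ⟨[], ?_⟩
        subst hb1
        simp at h4
        rw [h4]; simpa using h2
      · by_cases hb2 : a' = []
        · left
          refine ⟨[], ?_⟩
          subst hb2
          simp at h4
          rw [h3, h4]; simp
        · right; right
          exact ⟨a'', a', h4, h3, h2, hb1, hb2⟩
    · -- a = u ++ c'', a' = c'' ++ b
      right; left
      exact ⟨c'', by rw [h2, h4]⟩
  · left
    exact ⟨c', h1⟩

lemma PreNN.append {u v : Wd} (hu : PreNN u) (hv : PreNN v) : PreNN (u ++ v) := by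
  intro a b h
  rcases List.append_eq_append_iff.mp h with ⟨a', h1, h2⟩ | ⟨c', h1, h2⟩
  · rw [h1, X_append]
    have := hv a' b h2
    have := hu u [] (by simp)
    omega
  · exact hu a c' h1

lemma SufPos.append {u v : Wd} (hu : SufPos u) (hv : SufPos v) : SufPos (u ++ v) := by
  intro a b h hb
  rcases List.append_eq_append_iff.mp h with ⟨a', h1, h2⟩ | ⟨c', h1, h2⟩
  · exact hv a' b h2 hb
  · rw [h2, X_append]
    by_cases hc : c' = []
    · subst hc
      simp only [List.nil_append] at h2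
      have := hv [] v (by simp) (h2 ▸ hb)
      simp; exact this
    · have h3 := hu a c' h1 hc
      by_cases hv0 : v = []
      · subst hv0; simp; exact h3
      · have := hv [] v (by simp) hv0
        omega

lemma saw_append {u v : Wd} (hu : Saw u) (hv : Saw v) (h1 : SufPos u) (h2 : PreNN v) :
    Saw (u ++ v) := by
  intro a b c h hb
  rcases infix_append h with ⟨c', e⟩ | ⟨a', e⟩ | ⟨b1, b2, e1, e2, e3, e4, e5⟩
  · exact hu a b c' e hb
  · exact hv a' b c e hb
  · rintro ⟨hx, _⟩
    rw [e1, X_append] at hx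
    have := h1 a b1 e2 e4
    have := h2 b2 c e3
    omega

lemma Br.append {u v : Wd} (hu : Br u) (hv : Br v) : Br (u ++ v) :=
  ⟨saw_append hu.1 hv.1 hu.2.2 hv.2.1, hu.2.1.append hv.2.1, hu.2.2.append hv.2.2⟩

/-- irreducible bridges -/
def Irr (u : Wd) : Prop := Br u ∧ u ≠ [] ∧ ∀ a b : Wd, u = a ++ b → Br a → Br b → a = [] ∨ b = []

/-- Unique first irreducible factor. -/
lemma irr_unique {u v u' v' : Wd} (hu : Irr u) (hv : Br v) (hu' : Irr u') (hv' : Br v')
    (h : u ++ v = u' ++ v') : u = u' ∧ v = v' := by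
  have key : ∀ {u v u' v' c : Wd}, Irr u → Br v → Irr u' → Br v' → u' = u ++ c → v = c ++ v' →
      c = [] := by
    intro u v u' v' c hu hv hu' hv' h1 h2
    -- `c` is a bridge
    have hc : Br c := by
      refine ⟨hu'.1.1.right h1, ?_, ?_⟩
      · intro p q hpq
        apply hv.2.1 p (q ++ v')
        rw [h2, hpq]; simp
      · intro p q hpq hq
        apply hu'.1.2.2 (u ++ p) q _ hq
        rw [h1, hpq]; simp
    rcases hu'.2.2 u c h1 hu.1 hc with h3 | h3
    · exact absurd h3 hu.2.1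
    · exact h3
  rcases List.append_eq_append_iff.mp h with ⟨c, h1, h2⟩ | ⟨c, h1, h2⟩
  · have hc := key hu hv hu' hv' h1 h2
    subst hc
    simp at h1 h2
    exact ⟨h1.symm, h2⟩
  · have hc := key hu' hv' hu hv h1 h2
    subst hc
    simp at h1 h2
    exact ⟨h1, h2.symm⟩

/-- Existence of a first irreducible factor. -/
lemma exists_first {u : Wd} (hu : Br u) (hne : u ≠ []) :
    ∃ a b : Wd, u = a ++ b ∧ Irr a ∧ Br b := by
  classical
  have hex : ∃ n, ∃ a b : Wd, u = a ++ b ∧ a ≠ [] ∧ Br a ∧ Br b ∧ a.length = n :=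
    ⟨u.length, u, [], by simp, hne, hu, br_nil, rfl⟩
  obtain ⟨a, b, h1, h2, h3, h4, h5⟩ := Nat.find_spec hex
  refine ⟨a, b, h1, ⟨h3, h2, ?_⟩, h4⟩
  intro a1 a2 h6 h7 h8
  by_contra hcon
  push Not at hcon
  obtain ⟨hc1, hc2⟩ := hcon
  have hlen : a1.length < a.length := by
    rw [h6, List.length_append]
    have : 0 < a2.length := List.length_pos_iff.mpr hc2
    omega
  rw [h5] at hlen
  exact Nat.find_min hex hlen ⟨a1, a2 ++ b, by rw [h1, h6]; simp, hc1, h7, h8.append h4, rfl⟩

/-- concatenation of bridges of a given span is injective -/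
lemma span_unique {u v u' v' : Wd} (hu : Br u) (hu' : Br u') (hX : X u = X u')
    (h : u ++ v = u' ++ v') : u = u' ∧ v = v' := by
  rcases List.append_eq_append_iff.mp h with ⟨c, h1, h2⟩ | ⟨c, h1, h2⟩
  · by_cases hc : c = []
    · subst hc
      simp at h1 h2
      exact ⟨h1.symm, h2⟩
    · exfalso
      have := hu'.2.2 u c h1 hc
      rw [h1, X_append] at hX
      omega
  · by_cases hc : c = []
    · subst hc
      simp at h1 h2
      exact ⟨h1, h2.symm⟩
    · exfalso
      have := hu.2.2 u' c h1 hc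
      rw [h1, X_append] at hX
      omega

end Pool.Agent.SawTree
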